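import Mathlib

/-!
# Identity principles for holomorphic functions on convex open sets

All functions are complex differentiable on convex open subsets of complex normed spaces; the
identity principle is obtained by restricting to complex lines.
-/

set_option autoImplicit false

open Set Metric Filter Topology

namespace Pool.Agent.J6H89.HermRank

/-- Identity principle on a convex open set: a function that is complex differentiable on a convex
open set and vanishes on a nonempty open subset vanishes. -/
theorem eq_zero_of_convex {V : Type*} [NormedAddCommGroup V] [NormedSpace ℂ V]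
    {U O : Set V} (hU : Convex ℝ U) (hUo : IsOpen U) (hO : IsOpen O) (hOU : O ⊆ U)
    (hne : O.Nonempty) {Φ : V → ℂ} (hΦ : DifferentiableOn ℂ Φ U) (h0 : ∀ v ∈ O, Φ v = 0) :
    ∀ v ∈ U, Φ v = 0 := by
  obtain ⟨v0, hv0⟩ := hne
  intro v hv
  set γ : ℂ → V := fun s => v0 + s • (v - v0) with hγ
  have hγc : Continuous γ := by fun_prop
  have hγd : Differentiable ℂ γ := by
    intro s
    simp only [hγ]
    fun_prop
  set S : Set ℂ := γ ⁻¹' U with hS
  have hSo : IsOpen S := hUo.preimage hγc
  have hSc : Convex ℝ S := by
    intro a ha b hb s t hs ht hst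
    simp only [hS, mem_preimage] at *
    have : γ (s • a + t • b) = s • γ a + t • γ b := by
      simp only [hγ, smul_add]
      have h1 : (s • a + t • b : ℂ) • (v - v0) = s • (a • (v - v0)) + t • (b • (v - v0)) := by
        rw [add_smul, smul_assoc, smul_assoc]
      rw [h1]
      have h2 : v0 = s • v0 + t • v0 := by rw [← add_smul, hst, one_smul]
      nth_rewrite 1 [h2]
      abel
    rw [this]
    exact hU ha hb hs ht hst
  have hg : DifferentiableOn ℂ (Φ ∘ γ) S := hΦ.comp hγd.differentiableOn (fun s hs => hs)
  have hg' : AnalyticOnNhd ℂ (Φ ∘ γ) S := hg.analyticOnNhd hSo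
  have h00 : (0 : ℂ) ∈ S := by simpa [hS, hγ] using hOU hv0
  have hev : (Φ ∘ γ) =ᶠ[𝓝 0] 0 := by
    have : γ ⁻¹' O ∈ 𝓝 (0 : ℂ) := by
      apply (hO.preimage hγc).mem_nhds
      simpa [hγ] using hv0
    filter_upwards [this] with s hs
    exact h0 _ hs
  have h1 := hg'.eqOn_zero_of_preconnected_of_eventuallyEq_zero hSc.isPreconnected h00 hev
  have h1S : (1 : ℂ) ∈ S := by simpa [hS, hγ] using hv
  have := h1 h1S
  simpa [hγ] using this

/-- Totally real identity principle: a function that is complex differentiable near `(c, star c)`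
and vanishes on the points `(x, star x)` vanishes on the whole ball. -/
theorem totally_real {F : Type*} [NormedAddCommGroup F] [NormedSpace ℂ F] [StarAddMonoid F]
    [NormedStarGroup F] [StarModule ℂ F] {c : F} {ρ : ℝ} {Φ : F × F → ℂ}
    (hΦ : DifferentiableOn ℂ Φ (ball (c, star c) ρ))
    (h0 : ∀ x ∈ ball c ρ, Φ (x, star x) = 0) :
    ∀ v ∈ ball (c, star c) ρ, Φ v = 0 := by
  rcases le_or_gt ρ 0 with hρ | hρ
  · intro v hv
    rw [ball_eq_empty.2 hρ] at hv
    exact absurd hv (notMem_empty _)
  have hhalf : ∀ v ∈ ball (c, star c) (ρ / 2), Φ v = 0 := by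
    intro v hv
    obtain ⟨u, w⟩ := v
    set X : F := (1 / 2 : ℂ) • (u + star w) with hX
    set Y : F := (-Complex.I / 2 : ℂ) • (u - star w) with hY
    have hu : X + Complex.I • Y = u := by
      rw [hX, hY, smul_smul]
      have : Complex.I * (-Complex.I / 2) = 1 / 2 := by
        have := Complex.I_mul_I
        linear_combination (-1 / 2) * this
      rw [this, ← smul_add]
      have : u + star w + (u - star w) = (2 : ℂ) • u := by rw [two_smul]; abel
      rw [this, smul_smul]; norm_num
    have hw : star X + Complex.I • star Y = w := by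
      rw [hX, hY, star_smul, star_smul, star_add, star_sub, star_star, smul_smul]
      have h1 : Complex.I * star (-Complex.I / 2) = -(1 / 2) := by
        simp only [star_div₀, star_neg]
        have : star Complex.I = -Complex.I := Complex.conj_I
        rw [this]
        have h2 : star (2 : ℂ) = 2 := by simp
        rw [h2]
        have := Complex.I_mul_I
        linear_combination (1 / 2) * this
      have h2 : star (1 / 2 : ℂ) = 1 / 2 := by simp
      rw [h1, h2, neg_smul, ← sub_eq_add_neg, ← smul_sub]
      have : star u + w - (star u - w) = (2 : ℂ) • w := by rw [two_smul]; abel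
      rw [this, smul_smul]; norm_num
    have hdu : ‖u - c‖ < ρ / 2 := by
      have := (mem_ball.1 hv)
      rw [Prod.dist_eq] at this
      have := lt_of_le_of_lt (le_max_left _ _) this
      simpa [dist_eq_norm] using this
    have hdw : ‖w - star c‖ < ρ / 2 := by
      have := (mem_ball.1 hv)
      rw [Prod.dist_eq] at this
      have := lt_of_le_of_lt (le_max_right _ _) this
      simpa [dist_eq_norm] using this
    have hdw' : ‖star w - c‖ < ρ / 2 := by
      rw [← norm_star, star_sub, star_star]; exact hdw
    have hXc : ‖X - c‖ < ρ / 2 := by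
      have : X - c = (1 / 2 : ℂ) • ((u - c) + (star w - c)) := by
        rw [hX]
        have : (u - c) + (star w - c) = (u + star w) - (2 : ℂ) • c := by rw [two_smul]; abel
        rw [this, smul_sub, smul_smul]; norm_num
      rw [this, norm_smul]
      have h3 : ‖(1 / 2 : ℂ)‖ = 1 / 2 := by norm_num
      rw [h3]
      have := norm_add_le (u - c) (star w - c)
      linarith
    have hYn : ‖Y‖ < ρ / 2 := by
      have : Y = (-Complex.I / 2 : ℂ) • ((u - c) - (star w - c)) := by
        rw [hY]; congr 1; abel
      rw [this, norm_smul]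
      have h3 : ‖(-Complex.I / 2 : ℂ)‖ = 1 / 2 := by simp
      rw [h3]
      have := norm_sub_le (u - c) (star w - c)
      linarith
    -- the complex line
    set γ : ℂ → F × F := fun s => (X + s • Y, star X + s • star Y) with hγ
    obtain ⟨R, hR1, hR⟩ : ∃ R : ℝ, 1 < R ∧ ‖X - c‖ + R * ‖Y‖ < ρ := by
      have h4 : ‖X - c‖ + 1 * ‖Y‖ < ρ := by linarith
      refine ⟨1 + (ρ - ‖X - c‖ - ‖Y‖) / (2 * (‖Y‖ + 1)), ?_, ?_⟩
      · have : 0 < (ρ - ‖X - c‖ - ‖Y‖) / (2 * (‖Y‖ + 1)) := by
          apply div_pos <;> [linarith; positivity]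
        linarith
      · have hpos : 0 < ρ - ‖X - c‖ - ‖Y‖ := by linarith
        have hY0 : 0 ≤ ‖Y‖ := norm_nonneg _
        have h5 : (ρ - ‖X - c‖ - ‖Y‖) / (2 * (‖Y‖ + 1)) * ‖Y‖ ≤ (ρ - ‖X - c‖ - ‖Y‖) / 2 := by
          rw [div_mul_eq_mul_div, div_le_div_iff₀ (by positivity) (by positivity)]
          nlinarith
        rw [add_mul, one_mul]
        linarith
    have hγd : Differentiable ℂ γ := by
      intro s
      simp only [hγ]
      fun_prop
    have hmaps : ∀ s ∈ ball (0 : ℂ) R, γ s ∈ ball (c, star c) ρ := by
      intro s hs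
      have hs' : ‖s‖ < R := by simpa using hs
      rw [mem_ball, Prod.dist_eq, max_lt_iff]
      have hYs : ‖s‖ * ‖Y‖ ≤ R * ‖Y‖ := mul_le_mul_of_nonneg_right hs'.le (norm_nonneg _)
      constructor
      · simp only [hγ, dist_eq_norm]
        have : X + s • Y - c = (X - c) + s • Y := by abel
        rw [this]
        refine lt_of_le_of_lt (norm_add_le _ _) ?_
        rw [norm_smul]; linarith
      · simp only [hγ, dist_eq_norm]
        have : star X + s • star Y - star c = star (X - c) + s • star Y := by
          rw [star_sub]; abel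
        rw [this]
        refine lt_of_le_of_lt (norm_add_le _ _) ?_
        rw [norm_smul, norm_star, norm_star]; linarith
    have hg : DifferentiableOn ℂ (Φ ∘ γ) (ball 0 R) :=
      hΦ.comp hγd.differentiableOn hmaps
    have hg' : AnalyticOnNhd ℂ (Φ ∘ γ) (ball 0 R) := hg.analyticOnNhd isOpen_ball
    have hreal : ∀ t : ℝ, (t : ℂ) ∈ ball (0 : ℂ) R → (Φ ∘ γ) t = 0 := by
      intro t ht
      have hm := hmaps _ ht
      have hst : γ t = (X + (t : ℂ) • Y, star (X + (t : ℂ) • Y)) := by
        simp only [hγ, star_add, star_smul]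
        congr 3
        exact (Complex.conj_ofReal t).symm
      simp only [Function.comp]
      rw [hst]
      apply h0
      rw [hst, mem_ball, Prod.dist_eq, max_lt_iff] at hm
      exact mem_ball.2 hm.1
    have hfreq : ∃ᶠ z in 𝓝[≠] (0 : ℂ), (Φ ∘ γ) z = 0 := by
      have ht : Tendsto (fun n : ℕ => ((1 / ((n : ℝ) + 1) : ℝ) : ℂ)) atTop (𝓝[≠] (0 : ℂ)) := by
        rw [tendsto_nhdsWithin_iff]
        constructor
        · have := tendsto_one_div_add_atTop_nhds_zero_nat (𝕜 := ℝ)
          have h2 := (Complex.continuous_ofReal.tendsto (0 : ℝ)).comp this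
          rw [Complex.ofReal_zero] at h2
          exact h2
        · refine Eventually.of_forall (fun n => ?_)
          simp only [mem_compl_iff, mem_singleton_iff]
          have : (1 / ((n : ℝ) + 1) : ℝ) ≠ 0 := by positivity
          exact_mod_cast this
      apply ht.frequently
      apply Eventually.frequently
      filter_upwards with n
      apply hreal
      rw [mem_ball, dist_zero_right, Complex.norm_real, Real.norm_eq_abs, abs_of_pos (by positivity)]
      have : (1 : ℝ) / ((n : ℝ) + 1) ≤ 1 := by
        rw [div_le_one (by positivity)]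
        have : (0 : ℝ) ≤ n := Nat.cast_nonneg n
        linarith
      linarith
    have hz := hg'.eqOn_zero_of_preconnected_of_frequently_eq_zero
      (convex_ball (0 : ℂ) R).isPreconnected (mem_ball_self (by linarith)) hfreq
    have hI : Complex.I ∈ ball (0 : ℂ) R := by simpa using hR1
    have := hz hI
    simp only [Function.comp, hγ, hu, hw] at this
    simpa using this
  exact eq_zero_of_convex (convex_ball _ _) isOpen_ball isOpen_ball
    (ball_subset_ball (by linarith)) ⟨(c, star c), mem_ball_self (by linarith)⟩ hΦ hhalf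

end Pool.Agent.J6H89.HermRank
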