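import Pool.Agent.J6H89.HermRank.Rank

/-!
# Diagonalisation of a Hermitian holomorphic kernel of finite rank
-/

set_option autoImplicit false
set_option linter.unusedSectionVars false

open Set Metric Filter Topology Matrix

namespace Pool.Agent.J6H89.HermRank

section

variable {E : Type*} [NormedAddCommGroup E] [NormedSpace ℂ E] [StarAddMonoid E]
  [NormedStarGroup E] [StarModule ℂ E]

theorem mem_prod_ball {c : E} {ρ : ℝ} {x y : E} (hx : x ∈ ball c ρ) (hy : y ∈ ball c ρ) :
    (x, star y) ∈ ball (c, star c) ρ := by
  rw [mem_ball, Prod.dist_eq]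
  refine max_lt hx ?_
  rw [dist_eq_norm, ← star_sub, norm_star, ← dist_eq_norm]
  exact hy

/-- Diagonalisation of a Hermitian holomorphic kernel of finite rank. -/
theorem exists_diag {c : E} {ρ : ℝ} (d : ℕ) : ∀ (P : E × E → ℂ),
    DifferentiableOn ℂ P (ball (c, star c) ρ) →
    (∀ x ∈ ball c ρ, ∀ y ∈ ball c ρ, P (y, star x) = star (P (x, star y))) →
    RankLE (fun (x y : ball c ρ) => P (x.1, star y.1)) d →
    ∃ N ≤ d, ∃ (ε : Fin N → ℝ) (f : Fin N → E → ℂ),
      (∀ j, ε j = 1 ∨ ε j = -1) ∧ (∀ j, DifferentiableOn ℂ (f j) (ball c ρ)) ∧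
      (∀ x ∈ ball c ρ, ∀ y ∈ ball c ρ, P (x, star y) = ∑ j, (ε j : ℂ) * (f j x * star (f j y))) ∧
      (∀ v : Fin N → ℂ, (∀ x ∈ ball c ρ, ∑ j, v j * f j x = 0) → v = 0) := by
  induction d with
  | zero =>
    intro P hP _ hr
    refine ⟨0, le_refl 0, Fin.elim0, Fin.elim0, fun j => j.elim0, fun j => j.elim0, ?_, ?_⟩
    · intro x hx y hy
      obtain ⟨a, s, h⟩ := hr
      have := h ⟨x, hx⟩ ⟨y, hy⟩
      simpa using this
    · intro v _
      funext j
      exact j.elim0
  | succ d ih =>
    intro P hP hH hr
    by_cases hz : ∀ x ∈ ball c ρ, P (x, star x) = 0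
    · have h0 := totally_real hP hz
      refine ⟨0, Nat.zero_le _, Fin.elim0, Fin.elim0, fun j => j.elim0, fun j => j.elim0, ?_, ?_⟩
      · intro x hx y hy
        rw [h0 _ (mem_prod_ball hx hy)]
        simp
      · intro v _
        funext j
        exact j.elim0
    · push Not at hz
      obtain ⟨y0, hy0, hne⟩ := hz
      set κ : ℂ := P (y0, star y0) with hκ
      have hκs : star κ = κ := (hH y0 hy0 y0 hy0).symm
      obtain ⟨q, hq⟩ : ∃ q : ℝ, κ = q := ⟨κ.re, by
        have := Complex.conj_eq_iff_re.1 hκs
        exact this.symm⟩
      have hq0 : q ≠ 0 := by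
        intro h
        rw [hq, h] at hne
        exact hne (by simp)
      set P' : E × E → ℂ := fun v => P v - P (v.1, star y0) * P (y0, v.2) / κ with hP'
      have hd1 : DifferentiableOn ℂ (fun v : E × E => P (v.1, star y0)) (ball (c, star c) ρ) := by
        refine hP.comp (f := fun v : E × E => (v.1, star y0)) (by fun_prop) ?_
        intro v hv
        rw [mem_ball, Prod.dist_eq, max_lt_iff] at hv
        exact mem_prod_ball hv.1 hy0
      have hd2 : DifferentiableOn ℂ (fun v : E × E => P (y0, v.2)) (ball (c, star c) ρ) := by
        refine hP.comp (f := fun v : E × E => (y0, v.2)) (by fun_prop) ?_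
        intro v hv
        rw [mem_ball, Prod.dist_eq, max_lt_iff] at hv
        rw [mem_ball, Prod.dist_eq]
        exact max_lt hy0 hv.2
      have hP'd : DifferentiableOn ℂ P' (ball (c, star c) ρ) := by
        apply hP.sub
        simp only [div_eq_mul_inv]
        exact (hd1.mul hd2).mul_const κ⁻¹
      have hH' : ∀ x ∈ ball c ρ, ∀ y ∈ ball c ρ, P' (y, star x) = star (P' (x, star y)) := by
        intro x hx y hy
        simp only [hP', star_sub, star_div₀, star_mul', hκs]
        rw [← hH x hx y hy, ← hH x hx y0 hy0, ← hH y0 hy0 y hy]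
        ring
      have hr' : RankLE (fun (x y : ball c ρ) => P' (x.1, star y.1)) d := by
        have := hr.schur (a := ⟨y0, hy0⟩) (b := ⟨y0, hy0⟩) hne (fun h => rankLE_of_minor h)
        exact this
      obtain ⟨N, hN, ε, f, hε, hf, hrep, hli⟩ := ih P' hP'd hH' hr'
      -- the new function
      set σ : ℝ := if 0 < q then 1 else -1 with hσ
      have hσ2 : σ = 1 ∨ σ = -1 := by
        rw [hσ]; split_ifs <;> simp
      set f0 : E → ℂ := fun x => P (x, star y0) / (Real.sqrt |q| : ℂ) with hf0
      have hsq : (Real.sqrt |q| : ℂ) * (Real.sqrt |q| : ℂ) = (|q| : ℝ) := by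
        rw [← Complex.ofReal_mul, Real.mul_self_sqrt (abs_nonneg _)]
      have hsq0 : (Real.sqrt |q| : ℂ) ≠ 0 := by
        have : Real.sqrt |q| ≠ 0 := by
          rw [Real.sqrt_ne_zero']
          exact abs_pos.2 hq0
        exact_mod_cast this
      have hσq : (σ : ℂ) / ((|q| : ℝ) : ℂ) = 1 / (q : ℂ) := by
        have hreal : σ / |q| = 1 / q := by
          rw [hσ]
          split_ifs with h
          · rw [abs_of_pos h]
          · have h' : q < 0 := lt_of_le_of_ne (not_lt.1 h) hq0
            rw [abs_of_neg h']
            rw [neg_div_neg_eq]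
        have := congrArg (fun t : ℝ => (t : ℂ)) hreal
        simpa using this
      refine ⟨N + 1, Nat.succ_le_succ hN, Fin.cons σ ε, Fin.cons f0 f, ?_, ?_, ?_, ?_⟩
      · intro j
        refine Fin.cases ?_ (fun j => ?_) j
        · simpa using hσ2
        · simpa using hε j
      · intro j
        refine Fin.cases ?_ (fun j => ?_) j
        · simp only [Fin.cons_zero, hf0]
          simp only [div_eq_mul_inv]
          apply DifferentiableOn.mul_const
          refine hP.comp (f := fun x : E => (x, star y0)) (by fun_prop) ?_
          intro x hx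
          exact mem_prod_ball hx hy0
        · simpa using hf j
      · intro x hx y hy
        rw [Fin.sum_univ_succ]
        simp only [Fin.cons_zero, Fin.cons_succ]
        rw [← hrep x hx y hy]
        simp only [hP', hf0, star_div₀]
        rw [← hH y hy y0 hy0]
        have h3 : star (Real.sqrt |q| : ℂ) = (Real.sqrt |q| : ℂ) := Complex.conj_ofReal _
        rw [h3, hq]
        have h4 : (σ : ℂ) * (P (x, star y0) / (Real.sqrt |q| : ℂ) *
            (P (y0, star y) / (Real.sqrt |q| : ℂ))) =
            P (x, star y0) * P (y0, star y) * ((σ : ℂ) / ((|q| : ℝ) : ℂ)) := by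
          rw [← hsq]
          field_simp
        rw [h4, hσq]
        ring
      · intro v hv
        -- the functions `f j` vanish at `y0`
        have hfy0 : ∀ j, f j y0 = 0 := by
          have h5 : ∀ y ∈ ball c ρ, ∑ j, ((ε j : ℂ) * star (f j y0)) * f j y = 0 := by
            intro y hy
            have h6 := hrep y hy y0 hy0
            have h7 : P' (y, star y0) = 0 := by
              simp only [hP']
              rw [← hκ]
              field_simp
              ring
            rw [h7] at h6
            rw [h6]
            refine Finset.sum_congr rfl (fun j _ => ?_)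
            ring
          have h8 := hli _ h5
          intro j
          have h9 := congrFun h8 j
          simp only [Pi.zero_apply, mul_eq_zero] at h9
          rcases h9 with h9 | h9
          · exfalso
            rcases hε j with h | h <;> rw [h] at h9 <;> norm_num at h9
          · exact star_eq_zero.1 h9
        have h10 := hv y0 hy0
        rw [Fin.sum_univ_succ] at h10
        simp only [Fin.cons_zero, Fin.cons_succ, hfy0, mul_zero, Finset.sum_const_zero,
          add_zero, hf0] at h10
        have hv0 : v 0 = 0 := by
          rcases mul_eq_zero.1 h10 with h | h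
          · exact h
          · exfalso
            rcases div_eq_zero_iff.1 h with h | h
            · exact hne h
            · exact hsq0 h
        have h11 : (fun j => v (Fin.succ j)) = 0 := by
          apply hli
          intro x hx
          have := hv x hx
          rw [Fin.sum_univ_succ, hv0, zero_mul, zero_add] at this
          simpa using this
        funext j
        refine Fin.cases ?_ (fun j => ?_) j
        · simpa using hv0
        · exact congrFun h11 j

end

end Pool.Agent.J6H89.HermRank
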