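import Pool.Agent.J6H89.HermRank.Basic

/-!
# Holomorphic extension of real-analytic functions

A real-analytic function `f` on a complex normed space `E` with a conjugation `star` is locally of
the form `f u = P (u, star u)` with `P` holomorphic on a ball of `E × E`.
-/

set_option autoImplicit false
set_option linter.unusedSectionVars false

open Set Metric Filter Topology

namespace Pool.Agent.J6H89.HermRank

section Ext

variable {E : Type*} [NormedAddCommGroup E] [NormedSpace ℂ E] [StarAddMonoid E]
  [NormedStarGroup E] [StarModule ℂ E]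

/-- `(u + w*) / 2`. -/
noncomputable def reP (v : E × E) : E := (1 / 2 : ℂ) • (v.1 + star v.2)

/-- `(u - w*) / (2 i)`. -/
noncomputable def imP (v : E × E) : E := (-Complex.I / 2 : ℂ) • (v.1 - star v.2)

theorem reP_add (v v' : E × E) : reP (v + v') = reP v + reP v' := by
  simp only [reP, Prod.fst_add, Prod.snd_add, star_add, ← smul_add]
  congr 1; abel

theorem imP_add (v v' : E × E) : imP (v + v') = imP v + imP v' := by
  simp only [imP, Prod.fst_add, Prod.snd_add, star_add, ← smul_add]
  congr 1; abel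

theorem reP_smul (c : ℂ) (v : E × E) :
    reP (c • v) = (c.re : ℂ) • reP v - (c.im : ℂ) • imP v := by
  simp only [reP, imP, Prod.smul_fst, Prod.smul_snd, star_smul, smul_add, smul_sub, smul_smul]
  have h1 : (1 / 2 : ℂ) * c = (c.re : ℂ) * (1 / 2) - (c.im : ℂ) * (-Complex.I / 2) := by
    conv_lhs => rw [← Complex.re_add_im c]
    ring
  have h2 : (1 / 2 : ℂ) * star c = (c.re : ℂ) * (1 / 2) + (c.im : ℂ) * (-Complex.I / 2) := by
    have : star c = (c.re : ℂ) - c.im * Complex.I := by
      apply Complex.ext <;> simp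
    rw [this]; ring
  rw [h1, h2, sub_smul, add_smul]
  abel

theorem imP_smul (c : ℂ) (v : E × E) :
    imP (c • v) = (c.re : ℂ) • imP v + (c.im : ℂ) • reP v := by
  simp only [reP, imP, Prod.smul_fst, Prod.smul_snd, star_smul, smul_add, smul_sub, smul_smul]
  have hI := Complex.I_mul_I
  have h1 : (-Complex.I / 2 : ℂ) * c = (c.re : ℂ) * (-Complex.I / 2) + (c.im : ℂ) * (1 / 2) := by
    conv_lhs => rw [← Complex.re_add_im c]
    linear_combination (-(c.im : ℂ) / 2) * hI
  have h2 : (-Complex.I / 2 : ℂ) * star c =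
      (c.re : ℂ) * (-Complex.I / 2) - (c.im : ℂ) * (1 / 2) := by
    have : star c = (c.re : ℂ) - c.im * Complex.I := by
      apply Complex.ext <;> simp
    rw [this]
    linear_combination ((c.im : ℂ) / 2) * hI
  rw [h1, h2, sub_smul, add_smul]
  abel

theorem norm_reP_le (v : E × E) : ‖reP v‖ ≤ ‖v‖ := by
  rw [reP, norm_smul]
  have h1 : ‖(1 / 2 : ℂ)‖ = 1 / 2 := by norm_num
  have h2 := norm_add_le v.1 (star v.2)
  rw [norm_star] at h2
  have h3 := norm_fst_le v
  have h4 := norm_snd_le v
  rw [h1]; linarith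

theorem norm_imP_le (v : E × E) : ‖imP v‖ ≤ ‖v‖ := by
  rw [imP, norm_smul]
  have h1 : ‖(-Complex.I / 2 : ℂ)‖ = 1 / 2 := by simp
  have h2 := norm_sub_le v.1 (star v.2)
  rw [norm_star] at h2
  have h3 := norm_fst_le v
  have h4 := norm_snd_le v
  rw [h1]; linarith

theorem reP_diag (x : E) : reP (x, star x) = x := by
  simp only [reP, star_star]
  rw [← two_smul ℂ x, smul_smul]; norm_num

theorem imP_diag (x : E) : imP (x, star x) = 0 := by
  simp [imP]

variable [NormedSpace ℝ E] [IsScalarTower ℝ ℂ E]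
variable {G : Type*} [NormedAddCommGroup G] [NormedSpace ℂ G] [NormedSpace ℝ G]
  [IsScalarTower ℝ ℂ G]

theorem real_smul_eq {H : Type*} [NormedAddCommGroup H] [NormedSpace ℂ H] [NormedSpace ℝ H]
    [IsScalarTower ℝ ℂ H] (r : ℝ) (x : H) : (r : ℂ) • x = r • x := by
  rw [← one_smul ℂ x, ← smul_assoc, ← smul_assoc]
  simp

/-- Complex-linear extension of a real-linear map. -/
noncomputable def extOne (L : E →L[ℝ] G) : (E × E) →L[ℂ] G :=
  LinearMap.mkContinuous
    { toFun := fun v => L (reP v) + Complex.I • L (imP v)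
      map_add' := fun v v' => by
        rw [reP_add, imP_add, map_add, map_add, smul_add]; abel
      map_smul' := fun c v => by
        simp only [RingHom.id_apply]
        rw [reP_smul, imP_smul, real_smul_eq, real_smul_eq, real_smul_eq, real_smul_eq,
          map_sub, map_add, map_smul, map_smul, map_smul, map_smul]
        rw [← real_smul_eq (H := G), ← real_smul_eq (H := G), ← real_smul_eq (H := G),
          ← real_smul_eq (H := G)]
        have hI := Complex.I_mul_I
        simp only [smul_add, smul_smul]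
        conv_rhs => rw [← Complex.re_add_im c]
        have h1 : ((c.re : ℂ) + c.im * Complex.I) * Complex.I =
          -(c.im : ℂ) + Complex.I * c.re := by linear_combination (c.im : ℂ) * hI
        rw [h1, add_smul, add_smul, neg_smul, mul_comm (c.im : ℂ) Complex.I]
        abel }
    (2 * ‖L‖) (fun v => by
      simp only [LinearMap.coe_mk, AddHom.coe_mk]
      have h1 := L.le_opNorm (reP v)
      have h2 := L.le_opNorm (imP v)
      have h3 := norm_reP_le v
      have h4 := norm_imP_le v
      have h5 : ‖L (reP v) + Complex.I • L (imP v)‖ ≤ ‖L (reP v)‖ + ‖L (imP v)‖ := by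
        refine (norm_add_le _ _).trans ?_
        rw [norm_smul, Complex.norm_I, one_mul]
      have h6 : ‖L‖ * ‖reP v‖ ≤ ‖L‖ * ‖v‖ := mul_le_mul_of_nonneg_left h3 (norm_nonneg _)
      have h7 : ‖L‖ * ‖imP v‖ ≤ ‖L‖ * ‖v‖ := mul_le_mul_of_nonneg_left h4 (norm_nonneg _)
      linarith)

theorem extOne_apply (L : E →L[ℝ] G) (v : E × E) :
    extOne L v = L (reP v) + Complex.I • L (imP v) := rfl

theorem norm_extOne_le (L : E →L[ℝ] G) : ‖extOne L‖ ≤ 2 * ‖L‖ :=
  LinearMap.mkContinuous_norm_le _ (by positivity) _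

theorem extOne_diag (L : E →L[ℝ] G) (x : E) : extOne L (x, star x) = L x := by
  rw [extOne_apply, reP_diag, imP_diag]; simp

/-- Complex-linear extension as an operator. -/
noncomputable def extOneL : (E →L[ℝ] G) →L[ℝ] ((E × E) →L[ℂ] G) :=
  LinearMap.mkContinuous
    { toFun := extOne
      map_add' := fun L L' => by
        ext v
        · simp [extOne_apply]; abel
        · simp [extOne_apply]; abel
      map_smul' := fun r L => by
        apply ContinuousLinearMap.ext
        intro v
        simp only [extOne_apply, smul_apply, RingHom.id_apply, smul_add]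
        rw [smul_comm Complex.I r] }
    2 norm_extOne_le

theorem extOneL_apply (L : E →L[ℝ] G) : extOneL L = extOne L := rfl

/-- Extension of real multilinear maps to complex multilinear maps. -/
theorem exists_extM (m : ℕ) :
    ∃ T : (ContinuousMultilinearMap ℝ (fun _ : Fin m => E) ℂ) →L[ℝ]
        (ContinuousMultilinearMap ℂ (fun _ : Fin m => E × E) ℂ),
      (∀ φ, ‖T φ‖ ≤ 2 ^ m * ‖φ‖) ∧ ∀ φ (x : Fin m → E), T φ (fun i => (x i, star (x i))) = φ x := by
  induction m with
  | zero =>
    refine ⟨((continuousMultilinearCurryFin0 ℂ (E × E) ℂ).symm.toContinuousLinearEquiv.toContinuousLinearMap.restrictScalars ℝ).comp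
      (continuousMultilinearCurryFin0 ℝ E ℂ).toContinuousLinearEquiv.toContinuousLinearMap, ?_, ?_⟩
    · intro φ
      simp
    · intro φ x
      simp
      congr 1
      exact Subsingleton.elim _ _
  | succ m ih =>
    obtain ⟨T, hT, hTd⟩ := ih
    set A : (ContinuousMultilinearMap ℝ (fun _ : Fin (m + 1) => E) ℂ) →L[ℝ]
        (E →L[ℝ] ContinuousMultilinearMap ℝ (fun _ : Fin m => E) ℂ) :=
      (continuousMultilinearCurryLeftEquiv ℝ (fun _ : Fin (m + 1) => E) ℂ).toContinuousLinearEquiv.toContinuousLinearMap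
      with hA
    set B : (E →L[ℝ] ContinuousMultilinearMap ℝ (fun _ : Fin m => E) ℂ) →L[ℝ]
        (E →L[ℝ] ContinuousMultilinearMap ℂ (fun _ : Fin m => E × E) ℂ) :=
      ContinuousLinearMap.compL ℝ E _ _ T with hB
    set D : ((E × E) →L[ℂ] ContinuousMultilinearMap ℂ (fun _ : Fin m => E × E) ℂ) →L[ℝ]
        (ContinuousMultilinearMap ℂ (fun _ : Fin (m + 1) => E × E) ℂ) :=
      (continuousMultilinearCurryLeftEquiv ℂ (fun _ : Fin (m + 1) => E × E) ℂ).symm.toContinuousLinearEquiv.toContinuousLinearMap.restrictScalars ℝ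
      with hD
    refine ⟨D.comp (extOneL.comp (B.comp A)), ?_, ?_⟩
    · intro φ
      have h1 : ‖(D.comp (extOneL.comp (B.comp A))) φ‖ = ‖extOne (T.comp φ.curryLeft)‖ := by
        have : (D.comp (extOneL.comp (B.comp A))) φ =
          (continuousMultilinearCurryLeftEquiv ℂ (fun _ : Fin (m + 1) => E × E) ℂ).symm
            (extOne (T.comp φ.curryLeft)) := rfl
        rw [this, LinearIsometryEquiv.norm_map]
      rw [h1]
      refine (norm_extOne_le _).trans ?_
      have h2 : ‖T.comp φ.curryLeft‖ ≤ 2 ^ m * ‖φ‖ := by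
        apply ContinuousLinearMap.opNorm_le_bound _ (by positivity)
        intro x
        have h3 := hT (φ.curryLeft x)
        have h4 := φ.curryLeft.le_opNorm x
        rw [ContinuousMultilinearMap.curryLeft_norm] at h4
        calc ‖(T.comp φ.curryLeft) x‖ ≤ 2 ^ m * ‖φ.curryLeft x‖ := h3
          _ ≤ 2 ^ m * (‖φ‖ * ‖x‖) := by gcongr
          _ = 2 ^ m * ‖φ‖ * ‖x‖ := by ring
      calc 2 * ‖T.comp φ.curryLeft‖ ≤ 2 * (2 ^ m * ‖φ‖) := by gcongr
        _ = 2 ^ (m + 1) * ‖φ‖ := by ring
    · intro φ x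
      have h1 : ((D.comp (extOneL.comp (B.comp A))) φ) (fun i => (x i, star (x i))) =
          (extOne (T.comp φ.curryLeft) (x 0, star (x 0)))
            (fun i => (x i.succ, star (x i.succ))) := rfl
      rw [h1, extOne_diag]
      have h2 : (T.comp φ.curryLeft) (x 0) = T (φ.curryLeft (x 0)) := rfl
      rw [h2, hTd (φ.curryLeft (x 0)) (fun i => x i.succ), ContinuousMultilinearMap.curryLeft_apply]
      congr 1
      funext i
      refine Fin.cases ?_ (fun i => ?_) i <;> simp

/-- Local holomorphic extension of a real-analytic function. -/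
theorem exists_ext {f : E → ℂ} {a : E} (hf : AnalyticAt ℝ f a) :
    ∃ r > 0, ∃ P : E × E → ℂ, DifferentiableOn ℂ P (ball (a, star a) r) ∧
      ∀ u ∈ ball a r, P (u, star u) = f u := by
  obtain ⟨ps, r0, hps⟩ := hf
  choose T hT hTd using exists_extM (E := E)
  set Q : FormalMultilinearSeries ℂ (E × E) ℂ := fun m => T m (ps m) with hQ
  obtain ⟨r1, hr1pos, hr1⟩ : ∃ r1 : NNReal, 0 < r1 ∧ (r1 : ENNReal) < r0 := by
    obtain ⟨r1, h1, h2⟩ := ENNReal.lt_iff_exists_nnreal_btwn.1 hps.r_pos
    exact ⟨r1, by exact_mod_cast h1, h2⟩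
  have hr1' : (r1 : ENNReal) < ps.radius := lt_of_lt_of_le hr1 hps.r_le
  obtain ⟨C, hC, hCb⟩ := ps.norm_mul_pow_le_of_lt_radius hr1'
  have hrad : ((r1 / 2 : NNReal) : ENNReal) ≤ Q.radius := by
    apply Q.le_radius_of_bound C
    intro m
    have h1 := hT m (ps m)
    calc ‖Q m‖ * ((r1 / 2 : NNReal) : ℝ) ^ m ≤ (2 ^ m * ‖ps m‖) * ((r1 / 2 : NNReal) : ℝ) ^ m := by
          gcongr
      _ = ‖ps m‖ * (r1 : ℝ) ^ m := by
          push_cast
          rw [div_pow]
          field_simp
      _ ≤ C := hCb m
  have hQrad : 0 < Q.radius := lt_of_lt_of_le (by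
    have : 0 < r1 / 2 := by positivity
    exact_mod_cast this) hrad
  have hsum := Q.hasFPowerSeriesOnBall hQrad
  set r : ℝ := (r1 : ℝ) / 2 with hr
  have hrpos : 0 < r := by positivity
  refine ⟨r, hrpos, fun v => Q.sum (v - (a, star a)), ?_, ?_⟩
  · intro v hv
    have h1 : v - (a, star a) ∈ Metric.eball (0 : E × E) Q.radius := by
      rw [Metric.mem_eball, edist_zero_right]
      refine lt_of_lt_of_le ?_ hrad
      rw [mem_ball, dist_eq_norm] at hv
      have : ‖v - (a, star a)‖ₑ = ENNReal.ofReal ‖v - (a, star a)‖ := by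
        exact (ofReal_norm _).symm
      rw [this]
      have h2 : ((r1 / 2 : NNReal) : ENNReal) = ENNReal.ofReal r := by
        rw [hr]
        rw [ENNReal.ofReal, Real.toNNReal_div (by positivity)]
        simp
      rw [h2]
      exact (ENNReal.ofReal_lt_ofReal_iff hrpos).2 hv
    have h2 := (hsum.analyticAt_of_mem h1).differentiableAt
    apply DifferentiableAt.differentiableWithinAt
    have h3 : DifferentiableAt ℂ (fun v : E × E => v - (a, star a)) v :=
      differentiableAt_id.sub_const _
    exact DifferentiableAt.comp (g := Q.sum) v h2 h3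
  · intro u hu
    have h1 : u - a ∈ Metric.eball (0 : E) r0 := by
      rw [Metric.mem_eball, edist_zero_right]
      refine lt_of_lt_of_le ?_ hr1.le
      rw [mem_ball, dist_eq_norm] at hu
      have : ‖u - a‖ₑ = ENNReal.ofReal ‖u - a‖ := (ofReal_norm _).symm
      rw [this, ← ENNReal.ofReal_coe_nnreal]
      apply (ENNReal.ofReal_lt_ofReal_iff (by positivity)).2
      have : r ≤ r1 := by rw [hr]; linarith [r1.2]
      linarith
    have h2 := hps.hasSum h1
    have h3 : a + (u - a) = u := by abel
    rw [h3] at h2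
    rw [← h2.tsum_eq]
    simp only [FormalMultilinearSeries.sum]
    congr 1
    funext m
    have h4 : (u, star u) - (a, star a) = (u - a, star (u - a)) := by
      simp [star_sub]
    rw [h4]
    exact hTd m (ps m) (fun _ => u - a)

end Ext

end Pool.Agent.J6H89.HermRank
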