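import Pool.Agent.J6H89.HermRank.Global

/-!
# The rank of a real-analytic function is bounded in terms of its ranks on lines
-/

set_option autoImplicit false

open Set Metric Filter Topology Matrix

namespace Pool.Agent.J6H89.HermRank

/-- The decomposition extends to all of `ℂ^n`. -/
theorem global_decomp {n N : ℕ} {p : (Fin n → ℂ) → ℝ} (hp : AnalyticOnNhd ℝ p univ)
    {ε : Fin N → ℝ} (hε : ∀ j, ε j = 1 ∨ ε j = -1) {ρ : ℝ} (hρ : 0 < ρ)
    {f : Fin N → (Fin n → ℂ) → ℂ}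
    (hf : ∀ j, DifferentiableOn ℂ (f j) (ball 0 ρ))
    (hrep : ∀ x ∈ ball (0 : Fin n → ℂ) ρ, p x = ∑ j, ε j * Complex.normSq (f j x))
    (hli : ∀ v : Fin N → ℂ, (∀ x ∈ ball (0 : Fin n → ℂ) ρ, ∑ j, v j * f j x = 0) → v = 0) :
    ∃ F : Fin N → (Fin n → ℂ) → ℂ, (∀ j, Differentiable ℂ (F j)) ∧
      ∀ x, p x = ∑ j, ε j * Complex.normSq (F j x) := by
  classical
  -- extensions to balls of radius `R`
  set Q : ℝ → Prop := fun R => ∃ F : Fin N → (Fin n → ℂ) → ℂ,
    (∀ j, DifferentiableOn ℂ (F j) (ball 0 R)) ∧ ∀ j, ∀ x ∈ ball (0 : Fin n → ℂ) ρ, F j x = f j x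
    with hQ
  have hQρ : Q ρ := ⟨f, hf, fun _ _ _ => rfl⟩
  have hmono : ∀ {R R' : ℝ}, R ≤ R' → Q R' → Q R := by
    rintro R R' h ⟨F, hF, hFf⟩
    exact ⟨F, fun j => (hF j).mono (ball_subset_ball h), hFf⟩
  have hstep : ∀ {R r : ℝ}, ρ ≤ R → 0 < r → (∀ a ∈ ball (0 : Fin n → ℂ) R, LocExt p a r) →
      Q R → Q (R + r) := by
    rintro R r hρR hr hloc ⟨F, hF, hFf⟩
    have hrepF : ∀ x ∈ ball (0 : Fin n → ℂ) R, p x = ∑ j, ε j * Complex.normSq (F j x) := by
      apply rep_extend hp hρ hF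
      intro x hx
      rw [hrep x hx]
      refine Finset.sum_congr rfl (fun j _ => ?_)
      rw [hFf j x hx]
    have hliF : ∀ v : Fin N → ℂ, (∀ x ∈ ball (0 : Fin n → ℂ) R, ∑ j, v j * F j x = 0) →
        v = 0 := by
      intro v hv
      apply hli
      intro x hx
      rw [← hv x (ball_subset_ball hρR hx)]
      refine Finset.sum_congr rfl (fun j _ => ?_)
      rw [hFf j x hx]
    have h1 : ∀ j, ∀ a ∈ ball (0 : Fin n → ℂ) R, ∃ G : (Fin n → ℂ) → ℂ,
        DifferentiableOn ℂ G (ball a r) ∧ ∀ x ∈ ball a r ∩ ball 0 R, G x = F j x := by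
      intro j a ha
      obtain ⟨G, hG, hGF⟩ := ext_step hε hF hrepF hliF ha hr (hloc a ha)
      exact ⟨G j, hG j, hGF j⟩
    have h2 : ∀ j, ∃ G : (Fin n → ℂ) → ℂ, DifferentiableOn ℂ G (ball 0 (R + r)) ∧
        ∀ x ∈ ball (0 : Fin n → ℂ) R, G x = F j x :=
      fun j => glue (lt_of_lt_of_le hρ hρR) hr (h1 j)
    choose G hG hGF using h2
    refine ⟨G, hG, fun j x hx => ?_⟩
    rw [hGF j x (ball_subset_ball hρR hx), hFf j x hx]
  have hall : ∀ R, Q R := by
    by_contra hne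
    push Not at hne
    obtain ⟨R0, hR0⟩ := hne
    set S : Set ℝ := {R | ρ ≤ R ∧ Q R} with hS
    have hSne : S.Nonempty := ⟨ρ, le_refl ρ, hQρ⟩
    have hSb : BddAbove S := by
      refine ⟨R0, ?_⟩
      rintro R ⟨_, hR⟩
      by_contra h
      exact hR0 (hmono (not_le.1 h).le hR)
    obtain ⟨r, hr, hloc⟩ := exists_uniform hp (sSup S)
    obtain ⟨R, ⟨hρR, hRQ⟩, hRlt⟩ := exists_lt_of_lt_csSup hSne (show sSup S - r / 2 < sSup S by
      linarith)
    have hRle : R ≤ sSup S := le_csSup hSb ⟨hρR, hRQ⟩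
    have h1 : Q (R + r) := by
      apply hstep hρR hr _ hRQ
      intro a ha
      apply hloc
      rw [mem_closedBall]
      rw [mem_ball] at ha
      linarith
    have h2 : R + r ≤ sSup S := le_csSup hSb ⟨by linarith, h1⟩
    linarith
  choose F hF hFf using hall
  -- consistency
  have hcons : ∀ R R' : ℝ, ρ ≤ R → ρ ≤ R' → ∀ j, ∀ x ∈ ball (0 : Fin n → ℂ) R,
      x ∈ ball (0 : Fin n → ℂ) R' → F R j x = F R' j x := by
    intro R R' hR hR' j x hx hx'
    have h1 : DifferentiableOn ℂ (fun y => F R j y - F R' j y)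
        (ball (0 : Fin n → ℂ) R ∩ ball 0 R') :=
      ((hF R j).mono inter_subset_left).sub ((hF R' j).mono inter_subset_right)
    have hc : Convex ℝ (ball (0 : Fin n → ℂ) R ∩ ball 0 R') :=
      (convex_ball _ _).inter (convex_ball _ _)
    have ho : IsOpen (ball (0 : Fin n → ℂ) R ∩ ball 0 R') := isOpen_ball.inter isOpen_ball
    have ho' : IsOpen (ball (0 : Fin n → ℂ) ρ) := isOpen_ball
    have hs : ball (0 : Fin n → ℂ) ρ ⊆ ball (0 : Fin n → ℂ) R ∩ ball 0 R' :=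
      subset_inter (ball_subset_ball hR) (ball_subset_ball hR')
    have hne : (ball (0 : Fin n → ℂ) ρ).Nonempty := ⟨0, mem_ball_self hρ⟩
    have hz : ∀ y ∈ ball (0 : Fin n → ℂ) ρ, (fun y => F R j y - F R' j y) y = 0 := by
      intro y hy
      simp only
      rw [hFf R j y hy, hFf R' j y hy, sub_self]
    have h2 := eq_zero_of_convex hc ho ho' hs hne h1 hz x ⟨hx, hx'⟩
    exact sub_eq_zero.1 h2
  refine ⟨fun j x => F (ρ + ‖x‖ + 1) j x, ?_, ?_⟩
  · intro j x
    have h1 : (fun y => F (ρ + ‖y‖ + 1) j y) =ᶠ[𝓝 x] F (ρ + ‖x‖ + 1) j := by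
      have hn : ball (0 : Fin n → ℂ) (ρ + ‖x‖ + 1) ∈ 𝓝 x := by
        apply isOpen_ball.mem_nhds
        rw [mem_ball_zero_iff]
        linarith
      filter_upwards [hn] with y hy
      apply hcons _ _ (by linarith [norm_nonneg y]) (by linarith [norm_nonneg x]) j y _ hy
      rw [mem_ball_zero_iff]
      linarith
    have h2 : x ∈ ball (0 : Fin n → ℂ) (ρ + ‖x‖ + 1) := by
      rw [mem_ball_zero_iff]
      linarith
    have h3 : DifferentiableAt ℂ (F (ρ + ‖x‖ + 1) j) x :=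
      ((hF _ j) x h2).differentiableAt (isOpen_ball.mem_nhds h2)
    exact h1.differentiableAt_iff.2 h3
  · intro x
    have h2 : x ∈ ball (0 : Fin n → ℂ) (ρ + ‖x‖ + 1) := by
      rw [mem_ball_zero_iff]
      linarith
    have := rep_extend hp hρ (hF (ρ + ‖x‖ + 1)) (ε := ε) (fun y hy => by
      rw [hrep y hy]
      refine Finset.sum_congr rfl (fun j _ => ?_)
      rw [hFf _ j y hy]) x h2
    exact this

/-- The rank on lines from the rank on hyperplanes. -/
theorem lineRank_of_hyperplane {n : ℕ} (hn : 2 ≤ n) {k : ℕ} {p : (Fin n → ℂ) → ℝ}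
    (h : ∀ (a : Fin n → ℂ) (L : (Fin (n - 1) → ℂ) →ₗ[ℂ] (Fin n → ℂ)),
        Function.Injective L →
        ∃ (ε : Fin k → ℝ) (g : Fin k → (Fin (n - 1) → ℂ) → ℂ),
          (∀ j, ε j = 1 ∨ ε j = -1) ∧ (∀ j, Differentiable ℂ (g j)) ∧
          ∀ x, p (a + L x) = ∑ j, ε j * Complex.normSq (g j x)) :
    LineRank p k := by
  intro a b
  -- a hyperplane containing `b`
  obtain ⟨L, hL, e, he⟩ : ∃ L : (Fin (n - 1) → ℂ) →ₗ[ℂ] (Fin n → ℂ), Function.Injective L ∧
      ∃ e, L e = b := by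
    have hlt : Submodule.span ℂ {b} < (⊤ : Submodule ℂ (Fin n → ℂ)) := by
      rw [lt_top_iff_ne_top]
      intro htop
      have h1 : Module.finrank ℂ (Submodule.span ℂ {b}) ≤ 1 := (finrank_span_le_card ({b} : Set (Fin n → ℂ))).trans (by simp)
      rw [htop, finrank_top, Module.finrank_fin_fun] at h1
      omega
    obtain ⟨φ, hφ0, hφ⟩ := Submodule.exists_le_ker_of_lt_top _ hlt
    have h1 : Module.finrank ℂ (LinearMap.ker φ) = n - 1 := by
      have := Module.Dual.finrank_ker_add_one_of_ne_zero hφ0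
      rw [Module.finrank_fin_fun] at this
      omega
    have h2 : Module.finrank ℂ (Fin (n - 1) → ℂ) = Module.finrank ℂ (LinearMap.ker φ) := by
      rw [h1, Module.finrank_fin_fun]
    set e := LinearEquiv.ofFinrankEq (Fin (n - 1) → ℂ) (LinearMap.ker φ) h2 with he
    have hb : b ∈ LinearMap.ker φ := hφ (Submodule.mem_span_singleton_self b)
    refine ⟨(LinearMap.ker φ).subtype ∘ₗ e.toLinearMap, ?_, e.symm ⟨b, hb⟩, ?_⟩
    · exact (Subtype.val_injective).comp e.injective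
    · simp
  obtain ⟨ε, g, _, hg, hpg⟩ := h a L hL
  refine ⟨ε, fun j t => g j (t • e), fun j => ?_, fun t => ?_⟩
  · exact (hg j).comp (f := fun t : ℂ => t • e) (by fun_prop)
  · rw [← hpg (t • e), map_smul, he]

/-- The theorem: the rank is at most `(k^n)^n`. -/
theorem main {n : ℕ} {k : ℕ} {p : (Fin n → ℂ) → ℝ} (hp : AnalyticOnNhd ℝ p univ)
    (h : LineRank p k) :
    ∃ (ε : Fin ((k ^ n) ^ n) → ℝ) (f : Fin ((k ^ n) ^ n) → (Fin n → ℂ) → ℂ),
      (∀ j, ε j = 1 ∨ ε j = -1) ∧ (∀ j, Differentiable ℂ (f j)) ∧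
      ∀ z, p z = ∑ j, ε j * Complex.normSq (f j z) := by
  obtain ⟨ρ, hρ, N, hN, ε, f, hε, hf, hrep, hli⟩ := local_decomp h (hp 0 (mem_univ _))
  obtain ⟨F, hF, hpF⟩ := global_decomp hp hε hρ hf hrep hli
  refine ⟨fun j => if hj : j.1 < N then ε ⟨j.1, hj⟩ else 1,
    fun j => if hj : j.1 < N then F ⟨j.1, hj⟩ else fun _ => 0, ?_, ?_, ?_⟩
  · intro j
    by_cases hj : j.1 < N
    · simpa [hj] using hε ⟨j.1, hj⟩
    · simp [hj]
  · intro j
    by_cases hj : j.1 < N
    · simpa [hj] using hF ⟨j.1, hj⟩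
    · simp [hj]
  · intro z
    rw [hpF z]
    symm
    rw [← Finset.sum_subset (Finset.subset_univ (Finset.univ.map (Fin.castLEEmb hN)))]
    · rw [Finset.sum_map]
      refine Finset.sum_congr rfl (fun m _ => ?_)
      simp
    · intro m _ hm
      have : ¬ m.1 < N := by
        intro hlt
        apply hm
        simp only [Finset.mem_map, Finset.mem_univ, true_and]
        exact ⟨⟨m.1, hlt⟩, by ext; simp⟩
      simp [this]

end Pool.Agent.J6H89.HermRank
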