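import Pool.Agent.J6H89.HermRank.Local

/-!
# Globalisation: analytic continuation of the local decomposition
-/

set_option autoImplicit false

open Set Metric Filter Topology Matrix

namespace Pool.Agent.J6H89.HermRank

/-- Local holomorphic extension of `p` on the ball of radius `r` about `a`. -/
def LocExt {n : ℕ} (p : (Fin n → ℂ) → ℝ) (a : Fin n → ℂ) (r : ℝ) : Prop :=
  ∃ P : (Fin n → ℂ) × (Fin n → ℂ) → ℂ, DifferentiableOn ℂ P (ball (a, star a) r) ∧
    ∀ u ∈ ball a r, P (u, star u) = p u

theorem exists_uniform {n : ℕ} {p : (Fin n → ℂ) → ℝ} (hp : AnalyticOnNhd ℝ p univ) (R : ℝ) :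
    ∃ r > 0, ∀ a ∈ closedBall (0 : Fin n → ℂ) R, LocExt p a r := by
  have h1 : ∀ a : Fin n → ℂ, ∃ r > 0, LocExt p a r := by
    intro a
    have hpa : AnalyticAt ℝ (fun z => (p z : ℂ)) a :=
      (Complex.ofRealCLM.analyticAt _).comp (hp a (mem_univ a))
    obtain ⟨r, hr, P, hP, hPp⟩ := exists_ext hpa
    exact ⟨r, hr, P, hP, hPp⟩
  choose ρ hρ hloc using h1
  obtain ⟨δ, hδ, hcov⟩ := lebesgue_number_lemma_of_metric (isCompact_closedBall (0 : Fin n → ℂ) R)
    (c := fun a => ball a (ρ a)) (fun a => isOpen_ball)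
    (fun x _ => mem_iUnion.2 ⟨x, mem_ball_self (hρ x)⟩)
  refine ⟨δ, hδ, fun x hx => ?_⟩
  obtain ⟨a, ha⟩ := hcov x hx
  obtain ⟨P, hP, hPp⟩ := hloc a
  refine ⟨P, hP.mono ?_, fun u hu => hPp u (ha hu)⟩
  intro v hv
  rw [mem_ball, Prod.dist_eq, max_lt_iff] at hv
  have h2 : star v.2 ∈ ball x δ := by
    rw [mem_ball, dist_eq_norm, ← norm_star, star_sub, star_star, ← dist_eq_norm]
    exact hv.2
  have h3 := ha h2
  have h4 := ha hv.1
  rw [mem_ball, Prod.dist_eq, max_lt_iff]
  refine ⟨h4, ?_⟩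
  rw [mem_ball, dist_eq_norm, ← norm_star, star_sub, star_star, ← dist_eq_norm] at h3
  exact h3

/-- One continuation step. -/
theorem ext_step {n N : ℕ} {p : (Fin n → ℂ) → ℝ} {ε : Fin N → ℝ}
    (hε : ∀ j, ε j = 1 ∨ ε j = -1) {R r : ℝ} {f : Fin N → (Fin n → ℂ) → ℂ}
    (hf : ∀ j, DifferentiableOn ℂ (f j) (ball 0 R))
    (hrep : ∀ x ∈ ball (0 : Fin n → ℂ) R, p x = ∑ j, ε j * Complex.normSq (f j x))
    (hli : ∀ v : Fin N → ℂ, (∀ x ∈ ball (0 : Fin n → ℂ) R, ∑ j, v j * f j x = 0) → v = 0)
    {a : Fin n → ℂ} (ha : a ∈ ball (0 : Fin n → ℂ) R) (hr : 0 < r) (hloc : LocExt p a r) :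
    ∃ F : Fin N → (Fin n → ℂ) → ℂ, (∀ j, DifferentiableOn ℂ (F j) (ball a r)) ∧
      ∀ j, ∀ x ∈ ball a r ∩ ball 0 R, F j x = f j x := by
  obtain ⟨P, hP, hPp⟩ := hloc
  set O : Set (Fin n → ℂ) := ball a r ∩ ball 0 R with hO
  have hOo : IsOpen O := isOpen_ball.inter isOpen_ball
  have hOc : Convex ℝ O := (convex_ball _ _).inter (convex_ball _ _)
  have haO : a ∈ O := ⟨mem_ball_self hr, ha⟩
  have hfO : ∀ j, DifferentiableOn ℂ (f j) O := fun j => (hf j).mono inter_subset_right
  -- the kernel identity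
  have hker : ∀ x ∈ O, ∀ y ∈ O, P (x, star y) = ∑ j, (ε j : ℂ) * (f j x * star (f j y)) := by
    set W : Set ((Fin n → ℂ) × (Fin n → ℂ)) := {v | v.1 ∈ O ∧ star v.2 ∈ O} with hW
    have hWo : IsOpen W :=
      (hOo.preimage continuous_fst).inter (hOo.preimage (continuous_star.comp continuous_snd))
    have hWc : Convex ℝ W := by
      intro u hu v hv s t hs ht hst
      refine ⟨hOc hu.1 hv.1 hs ht hst, ?_⟩
      have h1 : star (s • u + t • v).2 = s • star u.2 + t • star v.2 := by
        simp only [Prod.snd_add, Prod.smul_snd, star_add, star_smul, star_trivial]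
      rw [h1]
      exact hOc hu.2 hv.2 hs ht hst
    set Φ : (Fin n → ℂ) × (Fin n → ℂ) → ℂ := fun v =>
      P v - ∑ j, (ε j : ℂ) * (f j v.1 * star (f j (star v.2))) with hΦ
    have hWsub : W ⊆ ball (a, star a) r := by
      intro v hv
      rw [mem_ball, Prod.dist_eq, max_lt_iff]
      refine ⟨hv.1.1, ?_⟩
      have := hv.2.1
      rw [mem_ball, dist_eq_norm, ← norm_star, star_sub, star_star, ← dist_eq_norm] at this
      exact this
    have hΦd : DifferentiableOn ℂ Φ W := by
      apply (hP.mono hWsub).sub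
      apply DifferentiableOn.fun_sum
      intro j _
      apply DifferentiableOn.const_mul
      have h1 : DifferentiableOn ℂ (fun v : (Fin n → ℂ) × (Fin n → ℂ) => f j v.1) W :=
        (hfO j).comp differentiable_fst.differentiableOn (fun v hv => hv.1)
      have h2 : DifferentiableOn ℂ
          (fun v : (Fin n → ℂ) × (Fin n → ℂ) => star (f j (star v.2))) W := by
        intro v hv
        have h3 : DifferentiableAt ℂ (f j) (star v.2) :=
          ((hfO j) _ hv.2).differentiableAt (hOo.mem_nhds hv.2)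
        have h4 := h3.star_star
        rw [star_star] at h4
        exact (h4.comp v differentiableAt_snd).differentiableWithinAt
      exact h1.mul h2
    obtain ⟨δ, hδ, hδO⟩ := Metric.isOpen_iff.1 hOo a haO
    have hBW : ball (a, star a) δ ⊆ W := by
      intro v hv
      rw [mem_ball, Prod.dist_eq, max_lt_iff] at hv
      refine ⟨hδO hv.1, hδO ?_⟩
      rw [mem_ball, dist_eq_norm, ← norm_star, star_sub, star_star, ← dist_eq_norm]
      exact hv.2
    have h0 : ∀ x ∈ ball a δ, Φ (x, star x) = 0 := by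
      intro x hx
      have hxO := hδO hx
      simp only [hΦ, star_star]
      rw [hPp x hxO.1, hrep x hxO.2]
      push_cast
      rw [sub_eq_zero]
      refine Finset.sum_congr rfl (fun j _ => ?_)
      congr 1
      exact (Complex.mul_conj _).symm
    have h1 := totally_real (hΦd.mono hBW) h0
    have h2 := eq_zero_of_convex hWc hWo isOpen_ball hBW ⟨(a, star a), mem_ball_self hδ⟩ hΦd h1
    intro x hx y hy
    have h3 := h2 (x, star y) ⟨hx, by simpa using hy⟩
    simp only [hΦ, star_star, sub_eq_zero] at h3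
    exact h3
  -- linear independence on `O`
  have hliO : ∀ v : Fin N → ℂ, (∀ x ∈ O, ∑ j, v j * f j x = 0) → v = 0 := by
    intro v hv
    apply hli
    apply eq_zero_of_convex (convex_ball _ _) isOpen_ball hOo inter_subset_right ⟨a, haO⟩ _ hv
    apply DifferentiableOn.fun_sum
    intro j _
    exact (hf j).const_mul _
  -- the span of the values
  have hspan : Submodule.span ℂ ((fun y : Fin n → ℂ => fun j => f j y) '' O) = ⊤ := by
    by_contra hne
    obtain ⟨φ, hφ0, hφ⟩ := Submodule.exists_le_ker_of_lt_top _ (lt_top_iff_ne_top.2 hne)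
    apply hφ0
    have h1 : (fun l => φ (Pi.single l 1)) = 0 := by
      apply hliO
      intro x hx
      have h2 : (fun j => f j x) ∈ LinearMap.ker φ :=
        hφ (Submodule.subset_span ⟨x, hx, rfl⟩)
      rw [LinearMap.mem_ker, LinearMap.pi_apply_eq_sum_univ] at h2
      rw [← h2]
      refine Finset.sum_congr rfl (fun j _ => ?_)
      rw [smul_eq_mul, mul_comm]
      congr 2
      funext l
      by_cases hl : j = l
      · subst hl; simp
      · simp [hl]
    apply LinearMap.pi_ext'
    intro l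
    apply LinearMap.ext_ring
    exact congrFun h1 l
  have hG : ∀ w : Fin N → ℂ, ∃ G : (Fin n → ℂ) → ℂ, DifferentiableOn ℂ G (ball a r) ∧
      ∀ x ∈ O, G x = ∑ l, (ε l : ℂ) * (f l x * star (w l)) := by
    intro w
    have hw : w ∈ Submodule.span ℂ ((fun y : Fin n → ℂ => fun j => f j y) '' O) := by
      rw [hspan]; trivial
    induction hw using Submodule.span_induction with
    | mem w hw =>
      obtain ⟨y, hy, rfl⟩ := hw
      refine ⟨fun x => P (x, star y), ?_, ?_⟩
      · refine hP.comp (f := fun x => (x, star y)) (by fun_prop) ?_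
        intro x hx
        exact mem_prod_ball hx hy.1
      · intro x hx
        exact hker x hx y hy
    | zero =>
      exact ⟨fun _ => 0, differentiableOn_const _, fun x _ => by simp⟩
    | add u v _ _ hu hv =>
      obtain ⟨G1, hG1, h1⟩ := hu
      obtain ⟨G2, hG2, h2⟩ := hv
      refine ⟨fun x => G1 x + G2 x, hG1.add hG2, fun x hx => ?_⟩
      show G1 x + G2 x = _
      rw [h1 x hx, h2 x hx, ← Finset.sum_add_distrib]
      refine Finset.sum_congr rfl (fun l _ => ?_)
      simp only [Pi.add_apply, star_add]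
      ring
    | smul c u _ hu =>
      obtain ⟨G1, hG1, h1⟩ := hu
      refine ⟨fun x => star c * G1 x, hG1.const_mul _, fun x hx => ?_⟩
      show star c * G1 x = _
      rw [h1 x hx, Finset.mul_sum]
      refine Finset.sum_congr rfl (fun l _ => ?_)
      simp only [Pi.smul_apply, smul_eq_mul, star_mul']
      ring
  have hGj : ∀ j : Fin N, ∃ G : (Fin n → ℂ) → ℂ, DifferentiableOn ℂ G (ball a r) ∧
      ∀ x ∈ O, G x = f j x := by
    intro j
    obtain ⟨G, hGd, hGx⟩ := hG (Pi.single j (ε j : ℂ))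
    refine ⟨G, hGd, fun x hx => ?_⟩
    rw [hGx x hx, Finset.sum_eq_single j]
    · rw [Pi.single_eq_same]
      have h1 : star (ε j : ℂ) = (ε j : ℂ) := Complex.conj_ofReal _
      rw [h1]
      have h2 : (ε j : ℂ) * (ε j : ℂ) = 1 := by
        rcases hε j with h | h <;> rw [h] <;> norm_num
      linear_combination (f j x) * h2
    · intro l _ hl
      rw [Pi.single_eq_of_ne hl]
      simp
    · intro h
      exact absurd (Finset.mem_univ j) h
  choose G hGd hGx using hGj
  exact ⟨G, hGd, fun j x hx => hGx j x hx⟩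

/-- Gluing of the local continuations. -/
theorem glue {E : Type*} [NormedAddCommGroup E] [NormedSpace ℂ E] {R r : ℝ} (hR : 0 < R)
    (hr : 0 < r) {f : E → ℂ}
    (hf : ∀ a ∈ ball (0 : E) R, ∃ F : E → ℂ, DifferentiableOn ℂ F (ball a r) ∧
      ∀ x ∈ ball a r ∩ ball 0 R, F x = f x) :
    ∃ F : E → ℂ, DifferentiableOn ℂ F (ball (0 : E) (R + r)) ∧
      ∀ x ∈ ball (0 : E) R, F x = f x := by
  classical
  choose! G hGd hGx using hf
  have hkey : ∀ a ∈ ball (0 : E) R, ∀ b ∈ ball (0 : E) R, ∀ x ∈ ball a r ∩ ball b r,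
      G a x = G b x := by
    intro a ha b hb x hx
    set W : Set E := ball a r ∩ ball b r with hW
    have hWc : Convex ℝ W := (convex_ball _ _).inter (convex_ball _ _)
    have hWo : IsOpen W := isOpen_ball.inter isOpen_ball
    have hsub : W ∩ ball 0 R ⊆ W := inter_subset_left
    have hne : (W ∩ ball 0 R).Nonempty := by
      refine ⟨(1 / 2 : ℝ) • a + (1 / 2 : ℝ) • b, ⟨?_, ?_⟩, ?_⟩
      · rw [mem_ball, dist_eq_norm]
        have h1 : (1 / 2 : ℝ) • a + (1 / 2 : ℝ) • b - a = (1 / 2 : ℝ) • (b - a) := by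
          rw [smul_sub]
          have : a = (1 / 2 : ℝ) • a + (1 / 2 : ℝ) • a := by
            rw [← add_smul]; norm_num
          nth_rewrite 2 [this]
          abel
        rw [h1, norm_smul]
        have h2 : ‖b - a‖ < 2 * r := by
          have h3 := norm_sub_le_norm_sub_add_norm_sub b x a
          have h4 : ‖b - x‖ < r := by
            have := hx.2; rw [mem_ball, dist_comm, dist_eq_norm] at this; exact this
          have h5 : ‖x - a‖ < r := by
            have := hx.1; rw [mem_ball, dist_eq_norm] at this; exact this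
          linarith
        have h6 : ‖(1 / 2 : ℝ)‖ = 1 / 2 := by norm_num
        rw [h6]; linarith
      · rw [mem_ball, dist_eq_norm]
        have h1 : (1 / 2 : ℝ) • a + (1 / 2 : ℝ) • b - b = (1 / 2 : ℝ) • (a - b) := by
          rw [smul_sub]
          have : b = (1 / 2 : ℝ) • b + (1 / 2 : ℝ) • b := by
            rw [← add_smul]; norm_num
          nth_rewrite 2 [this]
          abel
        rw [h1, norm_smul]
        have h2 : ‖a - b‖ < 2 * r := by
          have h3 := norm_sub_le_norm_sub_add_norm_sub a x b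
          have h4 : ‖a - x‖ < r := by
            have := hx.1; rw [mem_ball, dist_comm, dist_eq_norm] at this; exact this
          have h5 : ‖x - b‖ < r := by
            have := hx.2; rw [mem_ball, dist_eq_norm] at this; exact this
          linarith
        have h6 : ‖(1 / 2 : ℝ)‖ = 1 / 2 := by norm_num
        rw [h6]; linarith
      · exact (convex_ball (0 : E) R) ha hb (by norm_num) (by norm_num) (by norm_num)
    have hd : DifferentiableOn ℂ (fun x => G a x - G b x) W :=
      ((hGd a ha).mono inter_subset_left).sub ((hGd b hb).mono inter_subset_right)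
    have h0 : ∀ y ∈ W ∩ ball 0 R, (fun x => G a x - G b x) y = 0 := by
      intro y hy
      simp only
      rw [hGx a ha y ⟨hy.1.1, hy.2⟩, hGx b hb y ⟨hy.1.2, hy.2⟩, sub_self]
    have := eq_zero_of_convex hWc hWo (hWo.inter isOpen_ball) hsub hne hd h0 x hx
    exact sub_eq_zero.1 this
  have hex : ∀ x ∈ ball (0 : E) (R + r), ∃ a ∈ ball (0 : E) R, x ∈ ball a r := by
    intro x hx
    rw [mem_ball_zero_iff] at hx
    by_cases hxR : ‖x‖ < R
    · exact ⟨x, mem_ball_zero_iff.2 hxR, mem_ball_self hr⟩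
    · have hxR' : R ≤ ‖x‖ := not_lt.1 hxR
      have hx0 : 0 < ‖x‖ := lt_of_lt_of_le hR hxR'
      set c : ℝ := (max (‖x‖ - r) 0 + R) / 2 with hc
      have hm1 : ‖x‖ - r ≤ max (‖x‖ - r) 0 := le_max_left _ _
      have hm2 : 0 ≤ max (‖x‖ - r) 0 := le_max_right _ _
      have hm3 : max (‖x‖ - r) 0 < R := max_lt (by linarith) hR
      have hc0 : 0 < c := by rw [hc]; linarith
      have hc1 : c < R := by rw [hc]; linarith
      have hc2 : ‖x‖ - c < r := by rw [hc]; linarith
      refine ⟨(c / ‖x‖) • x, ?_, ?_⟩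
      · rw [mem_ball_zero_iff, norm_smul, Real.norm_eq_abs, abs_of_pos (by positivity)]
        rw [div_mul_cancel₀ _ hx0.ne']
        exact hc1
      · rw [mem_ball, dist_eq_norm]
        have h1 : x - (c / ‖x‖) • x = (1 - c / ‖x‖) • x := by rw [sub_smul, one_smul]
        have h2 : 0 ≤ 1 - c / ‖x‖ := by
          rw [sub_nonneg, div_le_one hx0]; linarith
        rw [h1, norm_smul, Real.norm_eq_abs, abs_of_nonneg h2, sub_mul, one_mul,
          div_mul_cancel₀ _ hx0.ne']
        exact hc2
  choose! α hα hαx using hex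
  refine ⟨fun x => G (α x) x, ?_, ?_⟩
  · intro x hx
    have h1 : x ∈ ball (α x) r := hαx x hx
    have h2 : (fun y => G (α y) y) =ᶠ[𝓝 x] G (α x) := by
      have hn : ball (α x) r ∩ ball (0 : E) (R + r) ∈ 𝓝 x :=
        (isOpen_ball.inter isOpen_ball).mem_nhds ⟨h1, hx⟩
      filter_upwards [hn] with y hy
      exact hkey (α y) (hα y hy.2) (α x) (hα x hx) y ⟨hαx y hy.2, hy.1⟩
    have h3 : DifferentiableAt ℂ (G (α x)) x :=
      ((hGd (α x) (hα x hx)) x h1).differentiableAt (isOpen_ball.mem_nhds h1)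
    exact (h2.differentiableAt_iff.2 h3).differentiableWithinAt
  · intro x hx
    have hx' : x ∈ ball (0 : E) (R + r) := ball_subset_ball (by linarith) hx
    exact hGx (α x) (hα x hx') x ⟨hαx x hx', hx⟩

/-- Continuation of the identity `p = ∑ ± |f_j|²`. -/
theorem rep_extend {n N : ℕ} {p : (Fin n → ℂ) → ℝ} (hp : AnalyticOnNhd ℝ p univ)
    {ε : Fin N → ℝ} {ρ R : ℝ} (hρ : 0 < ρ) {F : Fin N → (Fin n → ℂ) → ℂ}
    (hF : ∀ j, DifferentiableOn ℂ (F j) (ball 0 R))
    (hrep : ∀ x ∈ ball (0 : Fin n → ℂ) ρ, p x = ∑ j, ε j * Complex.normSq (F j x)) :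
    ∀ x ∈ ball (0 : Fin n → ℂ) R, p x = ∑ j, ε j * Complex.normSq (F j x) := by
  intro x hx
  set T : Set ℝ := {t : ℝ | t • x ∈ ball (0 : Fin n → ℂ) R} with hT
  have hTc : Convex ℝ T := by
    intro a ha b hb s t hs ht hst
    simp only [hT, mem_ofPred_eq] at *
    have : (s • a + t • b) • x = s • (a • x) + t • (b • x) := by
      simp only [smul_eq_mul, add_smul, mul_smul]
    rw [this]
    exact (convex_ball (0 : Fin n → ℂ) R) ha hb hs ht hst
  have hu : AnalyticOnNhd ℝ (fun t : ℝ => p (t • x)) T := by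
    intro t _
    have h1 : AnalyticAt ℝ (fun t : ℝ => t • x) t := by fun_prop
    exact AnalyticAt.fun_comp (g := p) (f := fun t : ℝ => t • x) (hp (t • x) (mem_univ _)) h1
  have hv : AnalyticOnNhd ℝ (fun t : ℝ => ∑ j, ε j * Complex.normSq (F j (t • x))) T := by
    intro t ht
    apply Finset.analyticAt_fun_sum
    intro j _
    apply analyticAt_const.mul
    -- the complexified function
    have h1 : AnalyticAt ℂ (fun s : ℂ => F j (s • x)) (t : ℂ) := by
      set S : Set ℂ := {s : ℂ | s • x ∈ ball (0 : Fin n → ℂ) R} with hS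
      have hSo : IsOpen S := isOpen_ball.preimage (by fun_prop : Continuous (fun s : ℂ => s • x))
      have hd : DifferentiableOn ℂ (fun s : ℂ => F j (s • x)) S :=
        (hF j).comp (f := fun s : ℂ => s • x) (by fun_prop) (fun s hs => hs)
      have htS : (t : ℂ) ∈ S := by
        simp only [hS, mem_ofPred_eq]
        have : (t : ℂ) • x = t • x := by
          funext i
          simp
        rw [this]; exact ht
      exact hd.analyticAt (hSo.mem_nhds htS)
    have h2 : AnalyticAt ℝ (fun s : ℂ => F j (s • x)) (t : ℂ) := h1.restrictScalars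
    have h3 : AnalyticAt ℝ (fun t : ℝ => F j ((t : ℂ) • x)) t := by
      have h4 : AnalyticAt ℝ (fun t : ℝ => (t : ℂ)) t := Complex.ofRealCLM.analyticAt t
      exact AnalyticAt.fun_comp (g := fun s : ℂ => F j (s • x)) (f := fun t : ℝ => (t : ℂ)) h2 h4
    have h5 : (fun t : ℝ => Complex.normSq (F j (t • x))) = fun t : ℝ =>
        (F j ((t : ℂ) • x)).re * (F j ((t : ℂ) • x)).re +
          (F j ((t : ℂ) • x)).im * (F j ((t : ℂ) • x)).im := by
      funext t
      have : (t : ℂ) • x = t • x := by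
        funext i
        simp
      rw [this, Complex.normSq_apply]
    rw [h5]
    have hre : AnalyticAt ℝ (fun t : ℝ => (F j ((t : ℂ) • x)).re) t :=
      (Complex.reCLM.analyticAt _).comp h3
    have him : AnalyticAt ℝ (fun t : ℝ => (F j ((t : ℂ) • x)).im) t :=
      (Complex.imCLM.analyticAt _).comp h3
    exact (hre.mul hre).add (him.mul him)
  have hev : (fun t : ℝ => p (t • x)) =ᶠ[𝓝 0]
      (fun t : ℝ => ∑ j, ε j * Complex.normSq (F j (t • x))) := by
    have hn : {t : ℝ | t • x ∈ ball (0 : Fin n → ℂ) ρ} ∈ 𝓝 (0 : ℝ) := by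
      apply (isOpen_ball.preimage (by fun_prop : Continuous (fun t : ℝ => t • x))).mem_nhds
      simpa using hρ
    filter_upwards [hn] with t ht
    exact hrep _ ht
  have h0T : (0 : ℝ) ∈ T := by
    simp only [hT, mem_ofPred_eq, zero_smul]
    exact mem_ball_self (pos_of_mem_ball hx)
  have := hu.eqOn_of_preconnected_of_eventuallyEq hv hTc.isPreconnected h0T hev
  have h1T : (1 : ℝ) ∈ T := by simpa [hT] using hx
  simpa using this h1T

end Pool.Agent.J6H89.HermRank
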