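import Pool.Agent.J6H89.HermRank.Rank

/-!
# Rank bounds on polydiscs from rank bounds on coordinate discs
-/

set_option autoImplicit false

open Set Metric Filter Topology Matrix

namespace Pool.Agent.J6H89.HermRank

theorem piecewise_mem_ball {n : ℕ} (T : Finset (Fin n)) {x z : Fin n → ℂ} {ρ : ℝ}
    (hx : x ∈ ball (0 : Fin n → ℂ) ρ) (hz : z ∈ ball (0 : Fin n → ℂ) ρ) :
    T.piecewise x z ∈ ball (0 : Fin n → ℂ) ρ := by
  have hρ : 0 < ρ := pos_of_mem_ball hx
  rw [mem_ball_zero_iff, pi_norm_lt_iff hρ] at hx hz ⊢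
  intro i
  by_cases hi : i ∈ T
  · rw [Finset.piecewise_eq_of_mem _ _ _ hi]; exact hx i
  · rw [Finset.piecewise_eq_of_notMem _ _ _ hi]; exact hz i

theorem update_mem_ball {n : ℕ} {z : Fin n → ℂ} {ρ : ℝ} (hz : z ∈ ball (0 : Fin n → ℂ) ρ)
    (i : Fin n) {t : ℂ} (ht : t ∈ ball (0 : ℂ) ρ) :
    Function.update z i t ∈ ball (0 : Fin n → ℂ) ρ := by
  have hρ : 0 < ρ := pos_of_mem_ball hz
  rw [mem_ball_zero_iff, pi_norm_lt_iff hρ] at hz ⊢
  intro j
  by_cases hj : j = i
  · subst hj; simpa using ht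
  · rw [Function.update_of_ne hj]; exact hz j

theorem apply_mem_ball {n : ℕ} {z : Fin n → ℂ} {ρ : ℝ} (hz : z ∈ ball (0 : Fin n → ℂ) ρ)
    (i : Fin n) : z i ∈ ball (0 : ℂ) ρ := by
  rw [mem_ball_zero_iff] at hz ⊢
  exact lt_of_le_of_lt (norm_le_pi_norm z i) hz

theorem differentiable_piecewise {n : ℕ} (T : Finset (Fin n)) (z : Fin n → ℂ) :
    Differentiable ℂ (fun x : Fin n → ℂ => T.piecewise x z) := by
  rw [differentiable_pi]
  intro i
  by_cases hi : i ∈ T
  · simp only [Finset.piecewise_eq_of_mem _ _ _ hi]; fun_prop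
  · simp only [Finset.piecewise_eq_of_notMem _ _ _ hi]; fun_prop

/-- Rank bound on a polydisc from rank bounds on coordinate discs. -/
theorem poly_rank {n : ℕ} {Y : Type*} {ρ : ℝ} {Q : (Fin n → ℂ) → Y → ℂ} {k : ℕ}
    (hQ : ∀ b, DifferentiableOn ℂ (fun z => Q z b) (ball 0 ρ))
    (hk : ∀ i, ∀ z0 ∈ ball (0 : Fin n → ℂ) ρ,
      RankLE (fun (t : ball (0 : ℂ) ρ) b => Q (Function.update z0 i t.1) b) k) :
    RankLE (fun (z : ball (0 : Fin n → ℂ) ρ) b => Q z.1 b) (k ^ n) := by
  have main : ∀ T : Finset (Fin n), ∀ z0 ∈ ball (0 : Fin n → ℂ) ρ,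
      RankLE (fun (x : ball (0 : Fin n → ℂ) ρ) b => Q (T.piecewise x.1 z0) b) (k ^ T.card) := by
    intro T
    induction T using Finset.induction_on with
    | empty =>
      intro z0 _
      rw [Finset.card_empty, pow_zero]
      refine ⟨fun _ _ => 1, fun _ b => Q z0 b, fun x b => ?_⟩
      simp
    | insert i T hi ih =>
      intro z0 hz0
      have key := rank_glue (X := ball (0 : ℂ) ρ) (U := ball (0 : Fin n → ℂ) ρ)
        (Q := fun t x b => Q (T.piecewise x (Function.update z0 i t.1)) b) (k := k)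
        (l := k ^ T.card) (convex_ball _ _) isOpen_ball ?_ ?_ ?_
      · rw [Finset.card_insert_of_notMem hi, pow_succ, mul_comm]
        have h2 := key.comp (fun x : ball (0 : Fin n → ℂ) ρ =>
          ((⟨x.1 i, apply_mem_ball x.2 i⟩ : ball (0 : ℂ) ρ), x)) (fun b => b)
        refine (iff_of_eq ?_).1 h2
        congr 1
        funext x b
        congr 1
        funext j
        by_cases hj : j ∈ T
        · rw [Finset.piecewise_eq_of_mem _ _ _ hj,
            Finset.piecewise_eq_of_mem _ _ _ (Finset.mem_insert_of_mem hj)]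
        · rw [Finset.piecewise_eq_of_notMem _ _ _ hj]
          by_cases hji : j = i
          · subst hji
            rw [Finset.piecewise_eq_of_mem _ _ _ (Finset.mem_insert_self _ _)]
            simp
          · rw [Function.update_of_ne hji, Finset.piecewise_eq_of_notMem]
            simp [hj, hji]
      · intro t b
        exact (hQ b).comp (differentiable_piecewise T _).differentiableOn
          (fun x hx => piecewise_mem_ball T hx (update_mem_ball hz0 i t.2))
      · intro x hx
        have h2 := hk i (T.piecewise x z0) (piecewise_mem_ball T hx hz0)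
        refine (iff_of_eq ?_).1 h2
        congr 1
        funext t b
        congr 1
        funext j
        by_cases hji : j = i
        · subst hji
          rw [Finset.piecewise_eq_of_notMem _ _ _ hi]
          simp
        · rw [Function.update_of_ne hji]
          by_cases hj : j ∈ T
          · rw [Finset.piecewise_eq_of_mem _ _ _ hj, Finset.piecewise_eq_of_mem _ _ _ hj]
          · rw [Finset.piecewise_eq_of_notMem _ _ _ hj, Finset.piecewise_eq_of_notMem _ _ _ hj,
              Function.update_of_ne hji]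
      · intro t
        exact ih (Function.update z0 i t.1) (update_mem_ball hz0 i t.2)
  rcases le_or_gt ρ 0 with hρ | hρ
  · refine ⟨fun _ _ => 0, fun _ _ => 0, fun p => ?_⟩
    have := p.2
    simp only [ball_eq_empty.2 hρ] at this
    exact absurd this (notMem_empty _)
  · have := main Finset.univ 0 (mem_ball_self hρ)
    simpa using this

/-- Rank bound for a kernel on a product of two polydiscs from rank bounds on products of
coordinate discs. -/
theorem poly_rank_two {n : ℕ} {ρ : ℝ} {P : (Fin n → ℂ) × (Fin n → ℂ) → ℂ} {k : ℕ}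
    (hP : DifferentiableOn ℂ P (ball (0, 0) ρ))
    (hk : ∀ i j, ∀ z0 ∈ ball (0 : Fin n → ℂ) ρ, ∀ w0 ∈ ball (0 : Fin n → ℂ) ρ,
      RankLE (fun (t : ball (0 : ℂ) ρ) (s : ball (0 : ℂ) ρ) =>
        P (Function.update z0 i t.1, Function.update w0 j s.1)) k) :
    RankLE (fun (z : ball (0 : Fin n → ℂ) ρ) (w : ball (0 : Fin n → ℂ) ρ) => P (z.1, w.1))
      ((k ^ n) ^ n) := by
  have hmem : ∀ z ∈ ball (0 : Fin n → ℂ) ρ, ∀ w ∈ ball (0 : Fin n → ℂ) ρ,
      (z, w) ∈ ball ((0, 0) : (Fin n → ℂ) × (Fin n → ℂ)) ρ := by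
    intro z hz w hw
    rw [mem_ball, Prod.dist_eq]
    exact max_lt hz hw
  have step1 : ∀ j, ∀ w0 ∈ ball (0 : Fin n → ℂ) ρ,
      RankLE (fun (z : ball (0 : Fin n → ℂ) ρ) (s : ball (0 : ℂ) ρ) =>
        P (z.1, Function.update w0 j s.1)) (k ^ n) := by
    intro j w0 hw0
    refine poly_rank (Q := fun z (s : ball (0 : ℂ) ρ) => P (z, Function.update w0 j s.1)) ?_ ?_
    · intro s
      exact hP.comp (by fun_prop) (fun z hz => hmem z hz _ (update_mem_ball hw0 j s.2))
    · intro i z0 hz0
      exact hk i j z0 hz0 w0 hw0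
  have step2 : RankLE (fun (w : ball (0 : Fin n → ℂ) ρ) (z : ball (0 : Fin n → ℂ) ρ) =>
      P (z.1, w.1)) ((k ^ n) ^ n) := by
    refine poly_rank (Q := fun w (z : ball (0 : Fin n → ℂ) ρ) => P (z.1, w)) ?_ ?_
    · intro z
      exact hP.comp (by fun_prop) (fun w hw => hmem _ z.2 w hw)
    · intro j w0 hw0
      exact (step1 j w0 hw0).flip
  exact step2.flip

end Pool.Agent.J6H89.HermRank
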