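import Pool.Agent.J6H89.HermRank.Elim
import Pool.Agent.J6H89.HermRank.PolyRank
import Pool.Agent.J6H89.HermRank.Ext

/-!
# The local rank bound
-/

set_option autoImplicit false

open Set Metric Filter Topology Matrix

namespace Pool.Agent.J6H89.HermRank

/-- The rank of `p` on each complex line is at most `k`. -/
def LineRank {n : ℕ} (p : (Fin n → ℂ) → ℝ) (k : ℕ) : Prop :=
  ∀ a b : Fin n → ℂ, ∃ (ε : Fin k → ℝ) (g : Fin k → ℂ → ℂ), (∀ j, Differentiable ℂ (g j)) ∧
    ∀ t : ℂ, p (a + t • b) = ∑ j, ε j * Complex.normSq (g j t)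

/-- The real multiplication on `Fin n → ℂ`. -/
theorem star_smul_add {n : ℕ} (a b : Fin n → ℂ) (t : ℂ) :
    star (a + t • b) = star a + star t • star b := by
  rw [star_add, star_smul]

theorem hermitian_of_real {E : Type*} [NormedAddCommGroup E] [NormedSpace ℂ E] [StarAddMonoid E]
    [NormedStarGroup E] [StarModule ℂ E] {P : E × E → ℂ} {p : E → ℝ} {c : E} {r : ℝ}
    (hP : DifferentiableOn ℂ P (ball (c, star c) r))
    (hPp : ∀ u ∈ ball c r, P (u, star u) = p u) :
    ∀ x ∈ ball c r, ∀ y ∈ ball c r, P (y, star x) = star (P (x, star y)) := by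
  set S : E × E → E × E := fun v => (star v.2, star v.1) with hS
  have hSmem : ∀ v ∈ ball (c, star c) r, S v ∈ ball (c, star c) r := by
    intro v hv
    rw [mem_ball, Prod.dist_eq, max_lt_iff] at hv
    rw [mem_ball, Prod.dist_eq, max_lt_iff]
    constructor
    · simp only [hS]
      rw [dist_eq_norm, ← norm_star, star_sub, star_star, ← dist_eq_norm]
      exact hv.2
    · simp only [hS]
      rw [dist_eq_norm, ← norm_star, star_sub, star_star, star_star, ← dist_eq_norm]
      exact hv.1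
  have hd : DifferentiableOn ℂ (fun v : E × E => P v - star (P (S v))) (ball (c, star c) r) := by
    apply hP.sub
    intro v hv
    apply DifferentiableAt.differentiableWithinAt
    set R : E × E → ℂ := fun w => P (w.2, w.1) with hR
    have h1 : DifferentiableAt ℂ R (star v) := by
      have h2 : DifferentiableAt ℂ P ((star v).2, (star v).1) := by
        have h3 : ((star v).2, (star v).1) ∈ ball (c, star c) r := hSmem v hv
        exact (hP _ h3).differentiableAt (isOpen_ball.mem_nhds h3)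
      exact DifferentiableAt.comp (g := P) (f := fun w : E × E => (w.2, w.1)) (star v) h2
        (by fun_prop)
    have h2 := h1.star_star
    rw [star_star] at h2
    exact h2
  have h0 : ∀ x ∈ ball c r, (fun v : E × E => P v - star (P (S v))) (x, star x) = 0 := by
    intro x hx
    simp only [hS, star_star]
    rw [hPp x hx]
    have : star ((p x : ℝ) : ℂ) = (p x : ℂ) := Complex.conj_ofReal _
    rw [this, sub_self]
  have key := totally_real hd h0
  intro x hx y hy
  have := key (y, star x) (mem_prod_ball hy hx)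
  simp only [hS, star_star] at this
  rw [sub_eq_zero] at this
  exact this

/-- Restriction of the polarised kernel to a line. -/
theorem line_rank_kernel {n : ℕ} {p : (Fin n → ℂ) → ℝ} {k : ℕ} (hp : LineRank p k)
    {P : (Fin n → ℂ) × (Fin n → ℂ) → ℂ} {r : ℝ}
    (hP : DifferentiableOn ℂ P (ball (0, star 0) r))
    (hPp : ∀ u ∈ ball (0 : Fin n → ℂ) r, P (u, star u) = p u)
    {a b : Fin n → ℂ} (ha : ‖a‖ < r / 2) (hb : ‖b‖ < r / 2) :
    RankLE (fun (t s : ball (0 : ℂ) 1) => P (a + t.1 • b, star a + s.1 • star b)) k := by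
  obtain ⟨ε, g, hg, hpg⟩ := hp a b
  have hmem : ∀ t ∈ ball (0 : ℂ) 1, a + t • b ∈ ball (0 : Fin n → ℂ) r := by
    intro t ht
    rw [mem_ball_zero_iff] at ht ⊢
    refine lt_of_le_of_lt (norm_add_le _ _) ?_
    rw [norm_smul]
    have : ‖t‖ * ‖b‖ ≤ 1 * ‖b‖ := mul_le_mul_of_nonneg_right ht.le (norm_nonneg _)
    linarith
  set Φ : ℂ × ℂ → ℂ := fun v => P (a + v.1 • b, star a + v.2 • star b) -
    ∑ j, (ε j : ℂ) * (g j v.1 * star (g j (star v.2))) with hΦ
  have hmaps : ∀ v ∈ ball ((0 : ℂ), star (0 : ℂ)) 1,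
      (a + v.1 • b, star a + v.2 • star b) ∈ ball ((0 : Fin n → ℂ), star (0 : Fin n → ℂ)) r := by
    intro v hv
    rw [mem_ball, Prod.dist_eq, max_lt_iff] at hv
    have h1 : a + v.1 • b ∈ ball (0 : Fin n → ℂ) r := hmem v.1 hv.1
    have h2 : a + (star v.2) • b ∈ ball (0 : Fin n → ℂ) r := by
      apply hmem
      rw [mem_ball_zero_iff, norm_star]
      simpa using hv.2
    have h3 : star a + v.2 • star b = star (a + (star v.2) • b) := by
      rw [star_smul_add, star_star]
    rw [h3]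
    exact mem_prod_ball h1 h2
  have hd : DifferentiableOn ℂ Φ (ball ((0 : ℂ), star (0 : ℂ)) 1) := by
    apply DifferentiableOn.sub
    · exact hP.comp (f := fun v : ℂ × ℂ => (a + v.1 • b, star a + v.2 • star b))
        (by fun_prop) hmaps
    · apply DifferentiableOn.fun_sum
      intro j _
      apply DifferentiableOn.const_mul
      have h1 : DifferentiableOn ℂ (fun v : ℂ × ℂ => g j v.1) (ball ((0 : ℂ), star (0 : ℂ)) 1) :=
        ((hg j).comp differentiable_fst).differentiableOn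
      have h2 : DifferentiableOn ℂ (fun v : ℂ × ℂ => star (g j (star v.2)))
          (ball ((0 : ℂ), star (0 : ℂ)) 1) := by
        have h3 : Differentiable ℂ (star ∘ g j ∘ star) := fun z => by
          have h4 := ((hg j) (star z)).star_star
          rw [star_star] at h4
          exact h4
        exact (h3.comp differentiable_snd).differentiableOn
      exact h1.mul h2
  have h0 : ∀ t ∈ ball (0 : ℂ) 1, Φ (t, star t) = 0 := by
    intro t ht
    simp only [hΦ]
    have h1 : star a + star t • star b = star (a + t • b) := (star_smul_add a b t).symm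
    rw [h1, hPp _ (hmem t ht), hpg t, star_star]
    push_cast
    rw [sub_eq_zero]
    refine Finset.sum_congr rfl (fun j _ => ?_)
    congr 1
    exact (Complex.mul_conj _).symm
  have key := totally_real hd h0
  refine ⟨fun t j => (ε j : ℂ) * g j t.1, fun j s => star (g j (star s.1)), fun t s => ?_⟩
  have h1 : (t.1, s.1) ∈ ball ((0 : ℂ), star (0 : ℂ)) 1 := by
    rw [mem_ball, Prod.dist_eq]
    refine max_lt t.2 ?_
    have := s.2
    rw [mem_ball_zero_iff] at this
    simpa using this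
  have h2 := key _ h1
  simp only [hΦ, sub_eq_zero] at h2
  show P (a + t.1 • b, star a + s.1 • star b) = _
  rw [h2]
  refine Finset.sum_congr rfl (fun j _ => ?_)
  ring

theorem differentiableOn_det {V : Type*} [NormedAddCommGroup V] [NormedSpace ℂ V] {m : ℕ}
    {U : Set V} {M : V → Fin m → Fin m → ℂ} (hM : ∀ i j, DifferentiableOn ℂ (fun v => M v i j) U) :
    DifferentiableOn ℂ (fun v => (Matrix.of (M v)).det) U := by
  simp only [Matrix.det_apply, Matrix.of_apply]
  apply DifferentiableOn.fun_sum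
  intro σ _
  apply DifferentiableOn.const_smul
  intro v hv
  exact (HasFDerivWithinAt.finsetProd
    (fun i _ => (hM _ _ v hv).hasFDerivWithinAt)).differentiableWithinAt

/-- All mixed line kernels have rank at most `k`. -/
theorem mixed_minor {n : ℕ} {p : (Fin n → ℂ) → ℝ} {k : ℕ} (hp : LineRank p k)
    {P : (Fin n → ℂ) × (Fin n → ℂ) → ℂ} {r : ℝ}
    (hP : DifferentiableOn ℂ P (ball (0, star 0) r))
    (hPp : ∀ u ∈ ball (0 : Fin n → ℂ) r, P (u, star u) = p u)
    (t s : Fin (k + 1) → ball (0 : ℂ) 1)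
    {a b a' b' : Fin n → ℂ} (ha : ‖a‖ < r / 2) (hb : ‖b‖ < r / 2) (ha' : ‖a'‖ < r / 2)
    (hb' : ‖b'‖ < r / 2) :
    (Matrix.of fun i j => P (a + (t i).1 • b, a' + (s j).1 • b')).det = 0 := by
  set Ψ : ((Fin n → ℂ) × (Fin n → ℂ)) × ((Fin n → ℂ) × (Fin n → ℂ)) → ℂ := fun v =>
    (Matrix.of fun i j => P (v.1.1 + (t i).1 • v.1.2, v.2.1 + (s j).1 • v.2.2)).det with hΨ
  have hmem : ∀ (u v : Fin n → ℂ) (τ : ball (0 : ℂ) 1), ‖u‖ < r / 2 → ‖v‖ < r / 2 →
      ‖u + τ.1 • v‖ < r := by
    intro u v τ hu hv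
    refine lt_of_le_of_lt (norm_add_le _ _) ?_
    rw [norm_smul]
    have h1 : ‖τ.1‖ < 1 := mem_ball_zero_iff.1 τ.2
    have : ‖τ.1‖ * ‖v‖ ≤ 1 * ‖v‖ := mul_le_mul_of_nonneg_right h1.le (norm_nonneg _)
    linarith
  have hd : DifferentiableOn ℂ Ψ (ball ((0, 0), star (0, 0)) (r / 2)) := by
    apply differentiableOn_det
    intro i j
    refine hP.comp (f := fun v : ((Fin n → ℂ) × (Fin n → ℂ)) × ((Fin n → ℂ) × (Fin n → ℂ)) =>
      (v.1.1 + (t i).1 • v.1.2, v.2.1 + (s j).1 • v.2.2)) (by fun_prop) ?_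
    intro v hv
    rw [mem_ball, Prod.dist_eq, Prod.dist_eq, Prod.dist_eq, max_lt_iff, max_lt_iff,
      max_lt_iff] at hv
    obtain ⟨⟨h1, h2⟩, h3, h4⟩ := hv
    simp only [dist_zero_right] at h1 h2
    have h3' : ‖v.2.1‖ < r / 2 := by simpa using h3
    have h4' : ‖v.2.2‖ < r / 2 := by simpa using h4
    rw [mem_ball, Prod.dist_eq, max_lt_iff]
    constructor
    · simpa using hmem _ _ (t i) h1 h2
    · simpa using hmem _ _ (s j) h3' h4'
  have h0 : ∀ x ∈ ball ((0 : Fin n → ℂ), (0 : Fin n → ℂ)) (r / 2), Ψ (x, star x) = 0 := by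
    intro x hx
    rw [mem_ball, Prod.dist_eq, max_lt_iff] at hx
    have h1 : ‖x.1‖ < r / 2 := by simpa using hx.1
    have h2 : ‖x.2‖ < r / 2 := by simpa using hx.2
    have := line_rank_kernel hp hP hPp h1 h2
    exact this.minor_eq_zero (Nat.lt_succ_self k) t s
  have key := totally_real hd h0
  have h1 : ((a, b), (a', b')) ∈ ball (((0 : Fin n → ℂ), (0 : Fin n → ℂ)), star ((0 : Fin n → ℂ), (0 : Fin n → ℂ))) (r / 2) := by
    rw [mem_ball, Prod.dist_eq, Prod.dist_eq, Prod.dist_eq]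
    refine max_lt (max_lt ?_ ?_) (max_lt ?_ ?_)
    · simpa using ha
    · simpa using hb
    · simpa using ha'
    · simpa using hb'
  exact key _ h1

/-- The local rank bound. -/
theorem local_rank {n : ℕ} {p : (Fin n → ℂ) → ℝ} {k : ℕ} (hp : LineRank p k)
    {P : (Fin n → ℂ) × (Fin n → ℂ) → ℂ} {r : ℝ} (hr : 0 < r)
    (hP : DifferentiableOn ℂ P (ball (0, star 0) r))
    (hPp : ∀ u ∈ ball (0 : Fin n → ℂ) r, P (u, star u) = p u) :
    RankLE (fun (z : ball (0 : Fin n → ℂ) (r / 3)) (w : ball (0 : Fin n → ℂ) (r / 3)) =>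
      P (z.1, w.1)) ((k ^ n) ^ n) := by
  apply poly_rank_two
  · have h1 : ((0 : Fin n → ℂ), (0 : Fin n → ℂ)) = (0, star 0) := by rw [star_zero]
    rw [h1]
    exact hP.mono (ball_subset_ball (by linarith))
  · intro i j z0 hz0 w0 hw0
    apply rankLE_of_minor
    intro t s
    have hpos : 0 < r / 3 := by positivity
    -- rewrite as mixed line kernel
    have hscale : ∀ τ : ball (0 : ℂ) (r / 3), τ.1 / ((r / 3 : ℝ) : ℂ) ∈ ball (0 : ℂ) 1 := by
      intro τ
      have := τ.2
      rw [mem_ball_zero_iff] at this ⊢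
      rw [norm_div, Complex.norm_real, Real.norm_eq_abs, abs_of_pos hpos, div_lt_one hpos]
      exact this
    have hup : ∀ (z : Fin n → ℂ) (i : Fin n) (τ : ball (0 : ℂ) (r / 3)),
        Function.update z i τ.1 = Function.update z i 0 +
          (τ.1 / ((r / 3 : ℝ) : ℂ)) • (Pi.single i ((r / 3 : ℝ) : ℂ) : Fin n → ℂ) := by
      intro z i τ
      have hne : ((r / 3 : ℝ) : ℂ) ≠ 0 := by exact_mod_cast hpos.ne'
      funext l
      by_cases hl : l = i
      · subst hl
        simp only [Function.update_self, Pi.add_apply, Pi.smul_apply, Pi.single_eq_same,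
          zero_add, smul_eq_mul]
        field_simp
      · simp [Function.update_of_ne hl, Pi.single_eq_of_ne hl]
    have hn1 : ∀ (z : Fin n → ℂ) (i : Fin n), z ∈ ball (0 : Fin n → ℂ) (r / 3) →
        ‖Function.update z i 0‖ < r / 2 := by
      intro z i hz
      have := update_mem_ball hz i (t := 0) (mem_ball_self hpos)
      rw [mem_ball_zero_iff] at this
      linarith
    have hn2 : ∀ i : Fin n, ‖(Pi.single i ((r / 3 : ℝ) : ℂ) : Fin n → ℂ)‖ < r / 2 := by
      intro i
      rw [Pi.norm_single, Complex.norm_real, Real.norm_eq_abs, abs_of_pos hpos]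
      linarith
    have key := mixed_minor hp hP hPp (fun l => ⟨_, hscale (t l)⟩) (fun l => ⟨_, hscale (s l)⟩)
      (hn1 z0 i hz0) (hn2 i) (hn1 w0 j hw0) (hn2 j)
    rw [minor]
    refine Eq.trans ?_ key
    congr 1
    ext l m
    simp only [Matrix.of_apply]
    rw [hup z0 i (t l), hup w0 j (s m)]

/-- The local decomposition. -/
theorem local_decomp {n : ℕ} {p : (Fin n → ℂ) → ℝ} {k : ℕ} (hp : LineRank p k)
    (hpa : AnalyticAt ℝ p 0) :
    ∃ ρ > 0, ∃ N ≤ (k ^ n) ^ n, ∃ (ε : Fin N → ℝ) (f : Fin N → (Fin n → ℂ) → ℂ),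
      (∀ j, ε j = 1 ∨ ε j = -1) ∧
      (∀ j, DifferentiableOn ℂ (f j) (ball (0 : Fin n → ℂ) ρ)) ∧
      (∀ x ∈ ball (0 : Fin n → ℂ) ρ, p x = ∑ j, ε j * Complex.normSq (f j x)) ∧
      (∀ v : Fin N → ℂ, (∀ x ∈ ball (0 : Fin n → ℂ) ρ, ∑ j, v j * f j x = 0) → v = 0) := by
  have hpa' : AnalyticAt ℝ (fun z => (p z : ℂ)) 0 :=
    (Complex.ofRealCLM.analyticAt _).comp hpa
  obtain ⟨r, hr, P, hP, hPp⟩ := exists_ext hpa'
  have hrank := local_rank hp hr hP hPp
  have hrank' : RankLE (fun (x y : ball (0 : Fin n → ℂ) (r / 3)) => P (x.1, star y.1))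
      ((k ^ n) ^ n) := by
    exact hrank.comp (fun x => x) (fun y : ball (0 : Fin n → ℂ) (r / 3) => ⟨star y.1, by
      have := y.2
      rw [mem_ball_zero_iff] at this ⊢
      rw [norm_star]; exact this⟩)
  have hsub : ball ((0 : Fin n → ℂ), star (0 : Fin n → ℂ)) (r / 3) ⊆ ball (0, star 0) r :=
    ball_subset_ball (by linarith)
  have hH := hermitian_of_real hP hPp
  have hsub' : ball (0 : Fin n → ℂ) (r / 3) ⊆ ball 0 r := ball_subset_ball (by linarith)
  obtain ⟨N, hN, ε, f, hε, hf, hrep, hli⟩ := exists_diag ((k ^ n) ^ n) P (hP.mono hsub)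
    (fun x hx y hy => hH x (hsub' hx) y (hsub' hy)) hrank'
  refine ⟨r / 3, by positivity, N, hN, ε, f, hε, hf, ?_, hli⟩
  intro x hx
  have h1 := hrep x hx x hx
  rw [hPp x (hsub' hx)] at h1
  have h2 : ((p x : ℝ) : ℂ) = ((∑ j, ε j * Complex.normSq (f j x) : ℝ) : ℂ) := by
    rw [h1]
    push_cast
    refine Finset.sum_congr rfl (fun j _ => ?_)
    congr 1
    exact Complex.mul_conj _
  exact_mod_cast h2

end Pool.Agent.J6H89.HermRank
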