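import Pool.Agent.J6H89.HermRank.Basic

/-!
# Kernels of finite rank and the rank gluing lemma
-/

set_option autoImplicit false

open Set Metric Filter Topology Matrix

namespace Pool.Agent.J6H89.HermRank

/-- A kernel `Q : X → Y → ℂ` has rank at most `d` if it factors through `ℂ^d`. -/
def RankLE {X Y : Type*} (Q : X → Y → ℂ) (d : ℕ) : Prop :=
  ∃ (c : X → Fin d → ℂ) (s : Fin d → Y → ℂ), ∀ x y, Q x y = ∑ m, c x m * s m y

theorem RankLE.flip {X Y : Type*} {Q : X → Y → ℂ} {d : ℕ} (h : RankLE Q d) :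
    RankLE (fun y x => Q x y) d := by
  obtain ⟨c, s, h⟩ := h
  refine ⟨fun y m => s m y, fun m x => c x m, fun y x => ?_⟩
  show Q x y = _
  rw [h]
  exact Finset.sum_congr rfl (fun m _ => mul_comm _ _)

theorem RankLE.mono {X Y : Type*} {Q : X → Y → ℂ} {d e : ℕ} (h : RankLE Q d) (hde : d ≤ e) :
    RankLE Q e := by
  obtain ⟨c, s, h⟩ := h
  refine ⟨fun x m => if hm : m.1 < d then c x ⟨m.1, hm⟩ else 0,
    fun m y => if hm : m.1 < d then s ⟨m.1, hm⟩ y else 0, fun x y => ?_⟩
  rw [h]
  symm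
  rw [← Finset.sum_subset (Finset.subset_univ (Finset.univ.map (Fin.castLEEmb hde)))]
  · rw [Finset.sum_map]
    refine Finset.sum_congr rfl (fun m _ => ?_)
    simp
  · intro m _ hm
    have : ¬ m.1 < d := by
      intro hlt
      apply hm
      simp only [Finset.mem_map, Finset.mem_univ, true_and]
      exact ⟨⟨m.1, hlt⟩, by ext; simp⟩
    simp [this]

theorem RankLE.comp {X Y X' Y' : Type*} {Q : X → Y → ℂ} {d : ℕ} (h : RankLE Q d)
    (f : X' → X) (g : Y' → Y) : RankLE (fun x y => Q (f x) (g y)) d := by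
  obtain ⟨c, s, h⟩ := h
  exact ⟨fun x m => c (f x) m, fun m y => s m (g y), fun x y => h _ _⟩

/-- The minor of a kernel. -/
noncomputable def minor {X Y : Type*} (Q : X → Y → ℂ) {r : ℕ} (x : Fin r → X) (y : Fin r → Y) : ℂ :=
  (Matrix.of fun i j => Q (x i) (y j)).det

theorem RankLE.minor_eq_zero {X Y : Type*} {Q : X → Y → ℂ} {d : ℕ} (h : RankLE Q d) {r : ℕ}
    (hr : d < r) (x : Fin r → X) (y : Fin r → Y) : minor Q x y = 0 := by
  obtain ⟨c, s, h⟩ := h
  by_contra hne
  have hM : (Matrix.of fun i j => Q (x i) (y j)) =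
      (Matrix.of fun (i : Fin r) (m : Fin d) => c (x i) m) *
        (Matrix.of fun (m : Fin d) (j : Fin r) => s m (y j)) := by
    ext i j
    simp [Matrix.mul_apply, h]
  have hunit : IsUnit (Matrix.of fun i j => Q (x i) (y j)) := by
    rw [Matrix.isUnit_iff_isUnit_det]
    exact isUnit_iff_ne_zero.2 hne
  have h1 := Matrix.rank_of_isUnit _ hunit
  rw [hM] at h1
  have h2 := Matrix.rank_mul_le_left (Matrix.of fun (i : Fin r) (m : Fin d) => c (x i) m)
        (Matrix.of fun (m : Fin d) (j : Fin r) => s m (y j))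
  have h3 := Matrix.rank_le_width (Matrix.of fun (i : Fin r) (m : Fin d) => c (x i) m)
  simp only [Fintype.card_fin] at h1
  omega

/-- A bordered minor as a block determinant. -/
theorem minor_snoc {X Y : Type*} (Q : X → Y → ℂ) {r : ℕ} (x : Fin r → X) (y : Fin r → Y)
    (a : X) (b : Y) :
    minor Q (Fin.snoc x a : Fin (r + 1) → X) (Fin.snoc y b : Fin (r + 1) → Y) =
      (Matrix.fromBlocks (Matrix.of fun i j => Q (x i) (y j)) (Matrix.of fun i (_ : Fin 1) => Q (x i) b)
        (Matrix.of fun (_ : Fin 1) j => Q a (y j)) (Matrix.of fun (_ _ : Fin 1) => Q a b)).det := by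
  have hblock : (Matrix.of fun (i j : Fin (r + 1)) =>
      Q ((Fin.snoc x a : Fin (r + 1) → X) i) ((Fin.snoc y b : Fin (r + 1) → Y) j)) =
      (Matrix.fromBlocks (Matrix.of fun i j => Q (x i) (y j))
        (Matrix.of fun i (_ : Fin 1) => Q (x i) b)
        (Matrix.of fun (_ : Fin 1) j => Q a (y j)) (Matrix.of fun (_ _ : Fin 1) => Q a b)).submatrix
        finSumFinEquiv.symm finSumFinEquiv.symm := by
    ext i j
    refine Fin.lastCases ?_ (fun i => ?_) i <;> refine Fin.lastCases ?_ (fun j => ?_) j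
    · have : (Fin.last r) = finSumFinEquiv (Sum.inr (0 : Fin 1)) := by ext; simp
      simp only [Matrix.of_apply, Fin.snoc_last, Matrix.submatrix_apply]
      rw [this, Equiv.symm_apply_apply]
      simp
    · have h1 : (Fin.last r) = finSumFinEquiv (Sum.inr (0 : Fin 1)) := by ext; simp
      have h2 : (Fin.castSucc j) = finSumFinEquiv (Sum.inl j : Fin r ⊕ Fin 1) := by ext; simp
      simp only [Matrix.of_apply, Fin.snoc_last, Fin.snoc_castSucc, Matrix.submatrix_apply]
      rw [h1, h2, Equiv.symm_apply_apply, Equiv.symm_apply_apply]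
      simp
    · have h1 : (Fin.last r) = finSumFinEquiv (Sum.inr (0 : Fin 1)) := by ext; simp
      have h2 : (Fin.castSucc i) = finSumFinEquiv (Sum.inl i : Fin r ⊕ Fin 1) := by ext; simp
      simp only [Matrix.of_apply, Fin.snoc_last, Fin.snoc_castSucc, Matrix.submatrix_apply]
      rw [h1, h2, Equiv.symm_apply_apply, Equiv.symm_apply_apply]
      simp
    · have h1 : (Fin.castSucc j) = finSumFinEquiv (Sum.inl j : Fin r ⊕ Fin 1) := by ext; simp
      have h2 : (Fin.castSucc i) = finSumFinEquiv (Sum.inl i : Fin r ⊕ Fin 1) := by ext; simp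
      simp only [Matrix.of_apply, Fin.snoc_castSucc, Matrix.submatrix_apply]
      rw [h1, h2, Equiv.symm_apply_apply, Equiv.symm_apply_apply]
      simp
  rw [minor, hblock, Matrix.det_submatrix_equiv_self]

/-- Bordered minors: if all bordered minors of an invertible block vanish then the kernel is
given by interpolation. -/
theorem interp_of_minor {X Y : Type*} {Q : X → Y → ℂ} {r : ℕ} {x : Fin r → X} {y : Fin r → Y}
    (hne : minor Q x y ≠ 0) (a : X) (b : Y)
    (hb : minor Q (Fin.snoc x a : Fin (r + 1) → X) (Fin.snoc y b : Fin (r + 1) → Y) = 0) :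
    Q a b = ∑ j, Q a (y j) *
      ∑ i, ((Matrix.of fun i j => Q (x i) (y j))⁻¹) j i * Q (x i) b := by
  set A : Matrix (Fin r) (Fin r) ℂ := Matrix.of fun i j => Q (x i) (y j) with hA
  have hAu : IsUnit A.det := isUnit_iff_ne_zero.2 hne
  set B : Matrix (Fin r) (Fin 1) ℂ := Matrix.of fun i _ => Q (x i) b with hB
  set C : Matrix (Fin 1) (Fin r) ℂ := Matrix.of fun _ j => Q a (y j) with hC
  set D : Matrix (Fin 1) (Fin 1) ℂ := Matrix.of fun _ _ => Q a b with hD
  have hdet : (Matrix.fromBlocks A B C D).det = 0 := by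
    rw [← hb, minor_snoc]
  have : Invertible A := Matrix.invertibleOfIsUnitDet A hAu
  rw [Matrix.det_fromBlocks₁₁, mul_eq_zero] at hdet
  have h2 := hdet.resolve_left hne
  rw [Matrix.det_fin_one, Matrix.sub_apply, sub_eq_zero] at h2
  have h3 : D 0 0 = Q a b := rfl
  rw [← h3, h2, Matrix.invOf_eq_nonsing_inv, Matrix.mul_apply]
  simp only [Matrix.mul_apply, hC, hB, Matrix.of_apply]
  simp only [Finset.sum_mul, Finset.mul_sum]
  rw [Finset.sum_comm]
  refine Finset.sum_congr rfl (fun j _ => Finset.sum_congr rfl (fun i _ => ?_))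
  ring

/-- Removing one dimension: Schur complement. -/
theorem RankLE.schur {X : Type*} {Y : Type*} {Q : X → Y → ℂ} {d : ℕ} (h : RankLE Q (d + 1))
    {a : X} {b : Y} (hab : Q a b ≠ 0) (hlift : ∀ {Q' : X → Y → ℂ} {e : ℕ},
      (∀ (x : Fin (e + 1) → X) (y : Fin (e + 1) → Y), minor Q' x y = 0) → RankLE Q' e) :
    RankLE (fun x y => Q x y - Q x b * Q a y / Q a b) d := by
  apply hlift
  intro x y
  have h1 := h.minor_eq_zero (Nat.lt_succ_self (d + 1)) (Fin.snoc x a : Fin (d + 1 + 1) → X)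
    (Fin.snoc y b : Fin (d + 1 + 1) → Y)
  rw [minor_snoc] at h1
  set D : Matrix (Fin 1) (Fin 1) ℂ := Matrix.of fun _ _ => Q a b with hD
  have hDdet : D.det = Q a b := by simp [hD]
  have : Invertible D := Matrix.invertibleOfIsUnitDet D (by rw [hDdet]; exact isUnit_iff_ne_zero.2 hab)
  rw [Matrix.det_fromBlocks₂₂, mul_eq_zero, hDdet] at h1
  have h2 := h1.resolve_left hab
  rw [minor]
  rw [← h2]
  congr 1
  ext i j
  simp only [Matrix.of_apply, Matrix.sub_apply, Matrix.mul_apply, Fin.sum_univ_one,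
    Finset.univ_unique, Finset.sum_singleton]
  rw [Matrix.invOf_eq_nonsing_inv, Matrix.inv_def, hDdet]
  simp
  ring

/-- Every kernel whose minors of order `d + 1` vanish has a maximal nonvanishing minor. -/
theorem exists_max_minor {X Y : Type*} {Q : X → Y → ℂ} {d : ℕ}
    (h : ∀ r, d < r → ∀ (x : Fin r → X) (y : Fin r → Y), minor Q x y = 0) :
    ∃ r ≤ d, (∃ (x : Fin r → X) (y : Fin r → Y), minor Q x y ≠ 0) ∧
      ∀ (x : Fin (r + 1) → X) (y : Fin (r + 1) → Y), minor Q x y = 0 := by
  classical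
  set P : ℕ → Prop := fun r => ∃ (x : Fin r → X) (y : Fin r → Y), minor Q x y ≠ 0 with hP
  have hP0 : P 0 := ⟨Fin.elim0, Fin.elim0, by simp [minor]⟩
  refine ⟨Nat.findGreatest P d, Nat.findGreatest_le d, Nat.findGreatest_spec (Nat.zero_le d) hP0, ?_⟩
  intro x y
  rcases Nat.lt_or_ge d (Nat.findGreatest P d + 1) with h1 | h1
  · exact h _ h1 x y
  · have := Nat.findGreatest_is_greatest (Nat.lt_succ_self (Nat.findGreatest P d)) h1
    simp only [hP, not_exists, not_not] at this
    exact this x y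

/-- Interpolation for a kernel of rank at most `d`. -/
theorem RankLE.exists_interp {X Y : Type*} {Q : X → Y → ℂ} {d : ℕ} (h : RankLE Q d) :
    ∃ r ≤ d, ∃ (y : Fin r → Y) (u : Fin r → Y → ℂ), ∀ a b, Q a b = ∑ j, Q a (y j) * u j b := by
  obtain ⟨r, hr, ⟨x, y, hxy⟩, hmax⟩ := exists_max_minor (d := d)
    (fun r hr x y => h.minor_eq_zero hr x y)
  exact ⟨r, hr, y, fun j b => ∑ i, ((Matrix.of fun i j => Q (x i) (y j))⁻¹) j i * Q (x i) b,
    fun a b => interp_of_minor hxy a b (hmax _ _)⟩

/-- If all minors of order `d + 1` vanish the rank is at most `d`. -/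
theorem rankLE_of_minor {X Y : Type*} {Q : X → Y → ℂ} {d : ℕ}
    (h : ∀ (x : Fin (d + 1) → X) (y : Fin (d + 1) → Y), minor Q x y = 0) : RankLE Q d := by
  classical
  -- the largest `r ≤ d` with a nonvanishing minor
  set P : ℕ → Prop := fun r => ∃ (x : Fin r → X) (y : Fin r → Y), minor Q x y ≠ 0 with hP
  have hP0 : P 0 := ⟨Fin.elim0, Fin.elim0, by simp [minor]⟩
  obtain ⟨x, y, hxy⟩ := Nat.findGreatest_spec (P := P) (Nat.zero_le d) hP0
  have hmax : ∀ (x : Fin (Nat.findGreatest P d + 1) → X) (y : Fin (Nat.findGreatest P d + 1) → Y),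
      minor Q x y = 0 := by
    intro x y
    rcases Nat.lt_or_ge d (Nat.findGreatest P d + 1) with h1 | h1
    · have h2 : Nat.findGreatest P d = d := le_antisymm (Nat.findGreatest_le d) (by omega)
      revert x y
      rw [h2]
      exact h
    · have := Nat.findGreatest_is_greatest (Nat.lt_succ_self (Nat.findGreatest P d)) h1
      simp only [hP, not_exists, not_not] at this
      exact this x y
  have : RankLE Q (Nat.findGreatest P d) :=
    ⟨fun a j => Q a (y j),
      fun j b => ∑ i, ((Matrix.of fun i j => Q (x i) (y j))⁻¹) j i * Q (x i) b,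
      fun a b => interp_of_minor hxy a b (hmax _ _)⟩
  exact this.mono (Nat.findGreatest_le d)

/-- The rank gluing lemma. -/
theorem rank_glue {X Y F : Type*} [NormedAddCommGroup F] [NormedSpace ℂ F] {U : Set F}
    (hU : Convex ℝ U) (hUo : IsOpen U) {Q : X → F → Y → ℂ}
    (hQ : ∀ a b, DifferentiableOn ℂ (fun z => Q a z b) U) {k l : ℕ}
    (h1 : ∀ z ∈ U, RankLE (fun a b => Q a z b) k)
    (h2 : ∀ a, RankLE (fun (z : U) b => Q a z.1 b) l) :
    RankLE (fun (p : X × U) b => Q p.1 p.2.1 b) (k * l) := by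
  classical
  rcases U.eq_empty_or_nonempty with hUe | ⟨z00, hz00⟩
  · refine ⟨fun _ _ => 0, fun _ _ => 0, fun p => ?_⟩
    have := p.2.2
    simp only [hUe] at this
    exact absurd this (notMem_empty _)
  -- the maximal size of a nonvanishing minor
  set P : ℕ → Prop := fun r => ∃ z ∈ U, ∃ (x : Fin r → X) (y : Fin r → Y),
    minor (fun a b => Q a z b) x y ≠ 0 with hP
  have hP0 : P 0 := ⟨z00, hz00, Fin.elim0, Fin.elim0, by simp [minor]⟩
  obtain ⟨r, hrk, hPr, hPm⟩ : ∃ r ≤ k, P r ∧ (r + 1 ≤ k → ¬ P (r + 1)) :=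
    ⟨Nat.findGreatest P k, Nat.findGreatest_le k, Nat.findGreatest_spec (Nat.zero_le k) hP0,
      fun h3 => Nat.findGreatest_is_greatest (Nat.lt_succ_self _) h3⟩
  obtain ⟨z0, hz0, x, y, hxy⟩ := hPr
  have hmax : ∀ z ∈ U, ∀ (x : Fin (r + 1) → X) (y : Fin (r + 1) → Y),
      minor (fun a b => Q a z b) x y = 0 := by
    intro z hz x y
    rcases Nat.lt_or_ge k (r + 1) with h3 | h3
    · exact (h1 z hz).minor_eq_zero h3 x y
    · by_contra hne
      exact hPm h3 ⟨z, hz, x, y, hne⟩
  -- the open set where the minor does not vanish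
  have hcont : ContinuousOn (fun z => minor (fun a b => Q a z b) x y) U := by
    unfold minor
    have h3 : ContinuousOn (fun z => (Matrix.of fun i j => Q (x i) z (y j))) U := by
      apply continuousOn_pi.2
      intro i
      apply continuousOn_pi.2
      intro j
      exact (hQ _ _).continuousOn
    exact (Continuous.matrix_det continuous_id).comp_continuousOn h3
  obtain ⟨O, hOo, hO⟩ : ∃ O : Set F, IsOpen O ∧
      (fun z => minor (fun a b => Q a z b) x y) ⁻¹' {0}ᶜ ∩ U = O ∩ U :=
    (_root_.continuousOn_iff'.1 hcont) _ isOpen_compl_singleton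
  set O' := O ∩ U with hO'
  have hO'o : IsOpen O' := hOo.inter hUo
  have hO'U : O' ⊆ U := inter_subset_right
  have hO'ne : O'.Nonempty := ⟨z0, by rw [← hO]; exact ⟨hxy, hz0⟩⟩
  have hO'm : ∀ z ∈ O', minor (fun a b => Q a z b) x y ≠ 0 := by
    intro z hz
    rw [← hO] at hz
    exact hz.1
  -- factorizations for the chosen points
  choose c s hcs using h2
  -- the kernel on the span
  set S : (Fin r × Fin l → ℂ) → Y → ℂ := fun v b => ∑ i, v i * s (x i.1) i.2 b with hS
  have hSrank : RankLE S (r * l) := by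
    refine ⟨fun v m => v (finProdFinEquiv.symm m),
      fun m b => s (x (finProdFinEquiv.symm m).1) (finProdFinEquiv.symm m).2 b, fun v b => ?_⟩
    simp only [hS]
    rw [← Equiv.sum_comp finProdFinEquiv.symm]
  obtain ⟨e, he, w, u, hwu⟩ := hSrank.exists_interp
  -- for `z ∈ O'` the functions are in the span
  have hspan : ∀ a, ∀ z ∈ O', ∃ v, ∀ b, Q a z b = S v b := by
    intro a z hz
    have hm := hO'm z hz
    refine ⟨fun p => (∑ j, Q a z (y j) * ((Matrix.of fun i j => Q (x i) z (y j))⁻¹) j p.1) *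
      c (x p.1) ⟨z, hO'U hz⟩ p.2, fun b => ?_⟩
    have h3 := interp_of_minor (Q := fun a b => Q a z b) hm a b (hmax z (hO'U hz) _ _)
    simp only [hS]
    rw [h3, Fintype.sum_prod_type]
    simp only [Finset.mul_sum]
    rw [Finset.sum_comm]
    refine Finset.sum_congr rfl (fun i _ => ?_)
    have h4 := hcs (x i) ⟨z, hO'U hz⟩ b
    simp only at h4
    rw [h4]
    simp only [Finset.mul_sum, Finset.sum_mul]
    rw [Finset.sum_comm]
    refine Finset.sum_congr rfl (fun m _ => Finset.sum_congr rfl (fun j _ => ?_))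
    ring
  have key : ∀ a b, ∀ z ∈ U, Q a z b - ∑ j, Q a z (w j) * u j b = 0 := by
    intro a b
    apply eq_zero_of_convex hU hUo hO'o hO'U hO'ne
    · apply (hQ a b).sub
      apply DifferentiableOn.fun_sum
      intro j _
      exact (hQ a (w j)).mul_const _
    · intro z hz
      obtain ⟨v, hv⟩ := hspan a z hz
      rw [hv b, hwu v b, sub_eq_zero]
      refine Finset.sum_congr rfl (fun j _ => ?_)
      rw [hv (w j)]
  have hfin : RankLE (fun (p : X × U) b => Q p.1 p.2.1 b) e := by
    refine ⟨fun p j => Q p.1 p.2.1 (w j), u, fun p b => ?_⟩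
    have := key p.1 b p.2.1 p.2.2
    rw [sub_eq_zero] at this
    exact this
  exact hfin.mono (he.trans (Nat.mul_le_mul_right l hrk))

end Pool.Agent.J6H89.HermRank
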